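import Pool.Agent.Q74.RC.Upper
import Pool.Agent.H319R2.Measure

/-! Cycles of the `3x+k` maps: linear forms and reciprocals. -/

set_option autoImplicit false

namespace Pool.Agent.Q74.RC

open Finset Filter Topology

/-- `Z` is a cycle of `T k` -/
def IsCycle (k : ℤ) (Z : Finset ℤ) : Prop :=
  ∃ (x : ℤ) (p : ℕ), 1 ≤ p ∧ (T k)^[p] x = x ∧ Z = (Finset.range p).image fun i => (T k)^[i] x

/-- number of odd elements -/
def odds (Z : Finset ℤ) : ℕ := (Z.filter fun x => x % 2 = 1).card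

/-- the linear form of a set -/
noncomputable def form (Z : Finset ℤ) : ℝ := (Z.card : ℝ) * Real.log 2 - odds Z * Real.log 3

theorem iter_mod {k x : ℤ} {p : ℕ} (h : (T k)^[p] x = x) (n : ℕ) :
    (T k)^[n] x = (T k)^[n % p] x := by
  have h1 := per_mul h (n / p)
  conv_lhs => rw [← Nat.mod_add_div n p, Nat.mul_comm p, Function.iterate_add_apply, h1]

theorem cyc_mem {k : ℤ} {Z : Finset ℤ} (h : IsCycle k Z) : ∃ x p, 1 ≤ p ∧ (T k)^[p] x = x ∧
    ∀ y, y ∈ Z ↔ Reach k x y := by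
  obtain ⟨x, p, hp, hx, rfl⟩ := h
  refine ⟨x, p, hp, hx, fun y => ?_⟩
  constructor
  · intro hy
    obtain ⟨i, -, hi⟩ := mem_image.1 hy
    exact ⟨i, hi⟩
  · rintro ⟨j, hj⟩
    rw [iter_mod hx] at hj
    exact mem_image.2 ⟨j % p, mem_range.2 (Nat.mod_lt _ hp), hj⟩

theorem cyc_per {k : ℤ} {Z : Finset ℤ} (h : IsCycle k Z) {y : ℤ} (hy : y ∈ Z) : Per k y := by
  obtain ⟨x, p, hp, hx, hm⟩ := cyc_mem h
  obtain ⟨j, hj⟩ := (hm y).1 hy
  rw [← hj]
  exact per_iter ⟨p, hp, hx⟩ j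

theorem cyc_T {k : ℤ} {Z : Finset ℤ} (h : IsCycle k Z) {y : ℤ} (hy : y ∈ Z) : T k y ∈ Z := by
  obtain ⟨x, p, hp, hx, hm⟩ := cyc_mem h
  obtain ⟨j, hj⟩ := (hm y).1 hy
  exact (hm _).2 ⟨j + 1, by rw [Function.iterate_succ_apply', hj]⟩

theorem cyc_iff {k : ℤ} {Z : Finset ℤ} (h : IsCycle k Z) {y : ℤ} (hy : y ∈ Z) (z : ℤ) :
    z ∈ Z ↔ Reach k y z := by
  obtain ⟨x, p, hp, hx, hm⟩ := cyc_mem h
  obtain ⟨j, hj⟩ := (hm y).1 hy
  constructor
  · intro hz
    obtain ⟨i, hi⟩ := (hm z).1 hz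
    -- from `y = T^j x` to `x`, then to `z`
    have h1 : (T k)^[j * p] x = x := per_mul hx j
    refine ⟨i + (j * p - j), ?_⟩
    rw [← hj, ← Function.iterate_add_apply, Nat.add_assoc, Nat.sub_add_cancel (Nat.le_mul_of_pos_right j hp),
      Function.iterate_add_apply, h1, hi]
  · rintro ⟨i, hi⟩
    exact (hm z).2 ⟨i + j, by rw [Function.iterate_add_apply, hj, hi]⟩

theorem cyc_eq {k : ℤ} {Z Z' : Finset ℤ} (h : IsCycle k Z) (h' : IsCycle k Z') {y : ℤ} (hy : y ∈ Z) (hy' : y ∈ Z') :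
    Z = Z' := by
  ext z
  rw [cyc_iff h hy, cyc_iff h' hy']

theorem cyc_disj {k : ℤ} {F : Finset (Finset ℤ)} (hF : ∀ Z ∈ F, IsCycle k Z) :
    Set.PairwiseDisjoint (F : Set (Finset ℤ)) id := by
  intro Z hZ Z' hZ' hne
  rw [Function.onFun, id, id, disjoint_left]
  intro y hy hy'
  exact hne (cyc_eq (hF Z hZ) (hF Z' hZ') hy hy')

theorem cyc_nonempty {k : ℤ} {Z : Finset ℤ} (h : IsCycle k Z) : Z.Nonempty := by
  obtain ⟨x, p, hp, hx, rfl⟩ := h
  exact ⟨x, mem_image.2 ⟨0, mem_range.2 hp, rfl⟩⟩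

/-- invariance of sums -/
theorem sum_T {k : ℤ} {U : Finset ℤ} (hU : ∀ x ∈ U, Per k x ∧ T k x ∈ U) (f : ℤ → ℝ) :
    ∑ x ∈ U, f (T k x) = ∑ x ∈ U, f x := by
  classical
  have hinj : Set.InjOn (T k) (U : Set ℤ) := fun x hx y hy h => per_inj (hU x hx).1 (hU y hy).1 h
  have himg : U.image (T k) = U := by
    apply eq_of_subset_of_card_le
    · intro y hy
      obtain ⟨x, hx, rfl⟩ := mem_image.1 hy
      exact (hU x hx).2
    · rw [card_image_of_injOn hinj]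
  conv_rhs => rw [← himg]
  rw [sum_image hinj]

/-- the linear form of a cycle -/
theorem form_eq {k : ℤ} (hk : k % 2 = 1) {Z : Finset ℤ} (hZ : IsCycle k Z) (h0 : (0 : ℤ) ∉ Z) :
    form Z = ∑ x ∈ Z.filter (fun x => x % 2 = 1),
      (Real.log |((3 * x + k : ℤ) : ℝ)| - Real.log |((3 * x : ℤ) : ℝ)|) := by
  have h1 := sum_T (U := Z) (fun x hx => ⟨cyc_per hZ hx, cyc_T hZ hx⟩) (fun x => Real.log |(x : ℝ)|)
  have h2 : ∀ x ∈ Z, Real.log |((T k x : ℤ) : ℝ)| - Real.log |(x : ℝ)| =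
      (if x % 2 = 1 then (Real.log |((3 * x + k : ℤ) : ℝ)| - Real.log |((3 * x : ℤ) : ℝ)|) + Real.log 3 else 0)
        - Real.log 2 := by
    intro x hx
    have hx0 : x ≠ 0 := by rintro rfl; exact h0 hx
    have hT0 : T k x ≠ 0 := by
      intro h
      exact h0 (h ▸ cyc_T hZ hx)
    have hxr : |(x : ℝ)| ≠ 0 := by
      rw [Ne, abs_eq_zero]; exact_mod_cast hx0
    have hTr : |((T k x : ℤ) : ℝ)| ≠ 0 := by
      rw [Ne, abs_eq_zero]; exact_mod_cast hT0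
    by_cases hx2 : x % 2 = 1
    · rw [if_pos hx2]
      have e1 : (3 * x + k : ℤ) = 2 * T k x := by rw [T_odd hx2]; omega
      have e2 : |((3 * x + k : ℤ) : ℝ)| = 2 * |((T k x : ℤ) : ℝ)| := by
        rw [e1]; push_cast; rw [abs_mul]; norm_num
      have e3 : |((3 * x : ℤ) : ℝ)| = 3 * |(x : ℝ)| := by
        push_cast; rw [abs_mul]; norm_num
      rw [e2, e3, Real.log_mul (by norm_num) hTr, Real.log_mul (by norm_num) hxr]
      ring
    · rw [if_neg hx2]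
      have e1 : x = 2 * T k x := by rw [T_even (by omega)]; omega
      have e2 : |(x : ℝ)| = 2 * |((T k x : ℤ) : ℝ)| := by
        conv_lhs => rw [e1]
        push_cast; rw [abs_mul]; norm_num
      rw [e2, Real.log_mul (by norm_num) hTr]
      ring
  have h3 : ∑ x ∈ Z, (Real.log |((T k x : ℤ) : ℝ)| - Real.log |(x : ℝ)|) = 0 := by
    rw [sum_sub_distrib, h1, sub_self]
  rw [sum_congr rfl h2, sum_sub_distrib, ← sum_filter, sum_add_distrib, sum_const, sum_const, nsmul_eq_mul,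
    nsmul_eq_mul] at h3
  unfold form odds
  linarith

theorem log_abs_le {a b m : ℝ} (hm : 0 < m) (ha : m ≤ a) (hb : m ≤ b) :
    |Real.log a - Real.log b| ≤ |a - b| / m := by
  have ha0 : 0 < a := by linarith
  have hb0 : 0 < b := by linarith
  have key : ∀ a b : ℝ, m ≤ a → m ≤ b → Real.log a - Real.log b ≤ |a - b| / m := by
    intro a b ha hb
    have ha0 : 0 < a := by linarith
    have hb0 : 0 < b := by linarith
    rw [← Real.log_div ha0.ne' hb0.ne']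
    refine (Real.log_le_sub_one_of_pos (div_pos ha0 hb0)).trans ?_
    have e : a / b - 1 = (a - b) / b := by field_simp
    rw [e]
    calc (a - b) / b ≤ |a - b| / b := div_le_div_of_nonneg_right (le_abs_self _) hb0.le
      _ ≤ |a - b| / m := div_le_div_of_nonneg_left (abs_nonneg _) hm hb
  rw [abs_le]
  constructor
  · have := key b a hb ha
    rw [abs_sub_comm] at this
    linarith
  · exact key a b ha hb

theorem k_pos {k : ℤ} (hk : k % 2 = 1) : (1 : ℝ) ≤ |(k : ℝ)| := by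
  have h : (1 : ℤ) ≤ |k| := by
    have : k ≠ 0 := by rintro rfl; simp at hk
    exact Int.one_le_abs this
  exact_mod_cast h

theorem mx_pos {k : ℤ} (hk : k % 2 = 1) (x : ℤ) : 0 < max |((3 * x + k : ℤ) : ℝ)| |(k : ℝ)| :=
  lt_of_lt_of_le (by have := k_pos hk; linarith) (le_max_right _ _)

theorem h_far {k x : ℤ} (hk : k % 2 = 1) (hx : |(k : ℝ)| ≤ |(x : ℝ)|) :
    |(Real.log |((3 * x + k : ℤ) : ℝ)| - Real.log |((3 * x : ℤ) : ℝ)|)| ≤
      2 * |(k : ℝ)| * (1 / max |((3 * x + k : ℤ) : ℝ)| |(k : ℝ)|) := by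
  have hk1 := k_pos hk
  have hx1 : 1 ≤ |(x : ℝ)| := hk1.trans hx
  have e3 : |((3 * x : ℤ) : ℝ)| = 3 * |(x : ℝ)| := by push_cast; rw [abs_mul]; norm_num
  have h1 : |(|((3 * x + k : ℤ) : ℝ)| - |((3 * x : ℤ) : ℝ)|)| ≤ |(k : ℝ)| := by
    refine (abs_abs_sub_abs_le_abs_sub _ _).trans (le_of_eq ?_)
    push_cast; ring_nf
  have h2 : 2 * |(x : ℝ)| ≤ |((3 * x + k : ℤ) : ℝ)| := by
    have := (abs_le.1 h1).1
    rw [e3] at this
    linarith
  have h3 := log_abs_le (m := 2 * |(x : ℝ)|) (b := |((3 * x : ℤ) : ℝ)|) (by linarith) h2 (by rw [e3]; linarith)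
  refine h3.trans ?_
  have h4 : max |((3 * x + k : ℤ) : ℝ)| |(k : ℝ)| ≤ 4 * |(x : ℝ)| := by
    have := max_le' x k
    rwa [max_eq_left hx] at this
  have h5 := mx_pos hk x
  rw [mul_one_div, div_le_div_iff₀ (by linarith) h5]
  calc |(|((3 * x + k : ℤ) : ℝ)| - |((3 * x : ℤ) : ℝ)|)| * max |((3 * x + k : ℤ) : ℝ)| |(k : ℝ)|
      ≤ |(k : ℝ)| * (4 * |(x : ℝ)|) := mul_le_mul h1 h4 h5.le (abs_nonneg _)
    _ = 2 * |(k : ℝ)| * (2 * |(x : ℝ)|) := by ring

theorem h_near {k x : ℤ} (hx : x % 2 = 1) (h0 : 3 * x + k ≠ 0) (hxk : |(x : ℝ)| < |(k : ℝ)|) :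
    |((3 * x + k : ℤ) : ℝ)| ≤ 4 * |(k : ℝ)| ∧ 1 ≤ |((3 * x + k : ℤ) : ℝ)| ∧ |((3 * x : ℤ) : ℝ)| ≤ 4 * |(k : ℝ)| ∧
      1 ≤ |((3 * x : ℤ) : ℝ)| := by
  refine ⟨?_, ?_, ?_, ?_⟩
  · push_cast
    refine (abs_add_le _ _).trans ?_
    rw [abs_mul]
    norm_num
    linarith
  · have : (1 : ℤ) ≤ |3 * x + k| := Int.one_le_abs h0
    exact_mod_cast this
  · push_cast
    rw [abs_mul]
    norm_num
    linarith [abs_nonneg (k : ℝ)]
  · have : (1 : ℤ) ≤ |3 * x| := Int.one_le_abs (by omega)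
    exact_mod_cast this

theorem h_all {k x : ℤ} (hk : k % 2 = 1) (hx : x % 2 = 1) (h0 : 3 * x + k ≠ 0) :
    |(Real.log |((3 * x + k : ℤ) : ℝ)| - Real.log |((3 * x : ℤ) : ℝ)|)| ≤
      4 * |(k : ℝ)| * Real.log (4 * |(k : ℝ)|) * (1 / max |((3 * x + k : ℤ) : ℝ)| |(k : ℝ)|) := by
  have hk1 := k_pos hk
  have hmx := mx_pos hk x
  have hlog : 1 / 2 ≤ Real.log (4 * |(k : ℝ)|) := by
    have h1 : Real.log 4 ≤ Real.log (4 * |(k : ℝ)|) := Real.log_le_log (by norm_num) (by linarith)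
    have h2 : Real.log 4 = 2 * Real.log 2 := by
      rw [show (4 : ℝ) = 2 ^ 2 by norm_num, Real.log_pow]; norm_num
    have := Real.log_two_gt_d9
    linarith
  rcases le_or_gt |(k : ℝ)| |(x : ℝ)| with h | h
  · refine (h_far hk h).trans ?_
    apply mul_le_mul_of_nonneg_right _ (by positivity)
    nlinarith
  · obtain ⟨h1, h2, h3, h4⟩ := h_near hx h0 h
    have l1 := Real.log_le_log (by linarith) h1
    have l2 := Real.log_nonneg h2
    have l3 := Real.log_le_log (by linarith) h3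
    have l4 := Real.log_nonneg h4
    have h5 : |(Real.log |((3 * x + k : ℤ) : ℝ)| - Real.log |((3 * x : ℤ) : ℝ)|)| ≤ Real.log (4 * |(k : ℝ)|) := by
      rw [abs_le]; constructor <;> linarith
    refine h5.trans ?_
    have h6 : 1 ≤ 4 * |(k : ℝ)| * (1 / max |((3 * x + k : ℤ) : ℝ)| |(k : ℝ)|) := by
      rw [mul_one_div, le_div_iff₀ hmx, one_mul]
      apply max_le h1
      linarith
    calc Real.log (4 * |(k : ℝ)|) = Real.log (4 * |(k : ℝ)|) * 1 := by ring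
      _ ≤ Real.log (4 * |(k : ℝ)|) * (4 * |(k : ℝ)| * (1 / max |((3 * x + k : ℤ) : ℝ)| |(k : ℝ)|)) :=
          mul_le_mul_of_nonneg_left h6 (by linarith)
      _ = _ := by ring


/-- the integers whose trajectory enters `Z` -/
def Basin (k : ℤ) (Z : Finset ℤ) : Set ℤ := {n | ∃ j : ℕ, (T k)^[j] n ∈ Z}

theorem odd_ne {k : ℤ} {Z : Finset ℤ} (hZ : IsCycle k Z) (h0 : (0 : ℤ) ∉ Z) {x : ℤ} (hx : x ∈ Z)
    (hx2 : x % 2 = 1) : 3 * x + k ≠ 0 := by
  intro h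
  apply h0
  have := cyc_T hZ hx
  rwa [T_odd hx2, h] at this

theorem tree_basin {k : ℤ} (hk : k % 2 = 1) {Z : Finset ℤ} (hZ : IsCycle k Z) {x : ℤ} (hx : x ∈ Z)
    (hx2 : x % 2 = 1) {z : ℤ} (hz : Tree k x z) : z ∈ Basin k Z := by
  obtain ⟨j, hj⟩ := hz
  refine ⟨j + 1, ?_⟩
  rw [Function.iterate_succ_apply', hj, T_three hk hx2]
  exact cyc_T hZ hx

/-- the linear form of a cycle is dominated by the densities of its basin -/
theorem form_dens {c : ℝ} (hc : TC c) {k : ℤ} (hk : k % 2 = 1) (hk3 : ¬ (3 : ℤ) ∣ k) {Z : Finset ℤ}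
    (hZ : IsCycle k Z) (h0 : (0 : ℤ) ∉ Z) {δ₁ δ₂ : ℝ} (h1 : HasDensity 1 (Basin k Z) δ₁)
    (h2 : HasDensity (-1) (Basin k Z) δ₂) :
    |form Z| ≤ 2 / c * |(k : ℝ)| * Real.log (4 * |(k : ℝ)|) * (δ₁ + δ₂) := by
  classical
  set O := Z.filter (fun x => x % 2 = 1) with hO
  have hOm : ∀ x ∈ O, x ∈ Z ∧ x % 2 = 1 := fun x hx => mem_filter.1 hx
  set P := O.filter (fun x => 0 < 3 * x + k) with hP
  set M := O.filter (fun x => ¬ 0 < 3 * x + k) with hM
  have hs : ∑ x ∈ O, 1 / max |((3 * x + k : ℤ) : ℝ)| |(k : ℝ)| =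
      ∑ x ∈ P, 1 / max |((3 * x + k : ℤ) : ℝ)| |(k : ℝ)| + ∑ x ∈ M, 1 / max |((3 * x + k : ℤ) : ℝ)| |(k : ℝ)| :=
    (sum_filter_add_sum_filter_not O _ _).symm
  have hdis : Dis k O := dis_per hk fun x hx => ⟨(hOm x hx).2, cyc_per hZ (hOm x hx).1⟩
  have hdP : Dis k P := fun x hx y hy => hdis x (mem_filter.1 hx).1 y (mem_filter.1 hy).1
  have hdM : Dis k M := fun x hx y hy => hdis x (mem_filter.1 hx).1 y (mem_filter.1 hy).1
  have hS : ∀ x ∈ O, ∀ z, Tree k x z → z ∈ Basin k Z := fun x hx z hz =>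
    tree_basin hk hZ (hOm x hx).1 (hOm x hx).2 hz
  have d1 := dens_lower hc hk hk3 (s := 1) (Or.inl rfl) hdP
    (fun x hx => by have := (mem_filter.1 hx).2; omega) (fun x hx => hS x (mem_filter.1 hx).1) h1
  have d2 := dens_lower hc hk hk3 (s := -1) (Or.inr rfl) hdM
    (fun x hx => by
      have h3 := (mem_filter.1 hx).2
      have h4 := odd_ne hZ h0 (hOm x (mem_filter.1 hx).1).1 (hOm x (mem_filter.1 hx).1).2
      omega) (fun x hx => hS x (mem_filter.1 hx).1) h2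
  have hk1 := k_pos hk
  have hlog : 0 ≤ Real.log (4 * |(k : ℝ)|) := Real.log_nonneg (by linarith)
  rw [form_eq hk hZ h0]
  calc |∑ x ∈ O, (Real.log |((3 * x + k : ℤ) : ℝ)| - Real.log |((3 * x : ℤ) : ℝ)|)|
      ≤ ∑ x ∈ O, |(Real.log |((3 * x + k : ℤ) : ℝ)| - Real.log |((3 * x : ℤ) : ℝ)|)| := abs_sum_le_sum_abs _ _
    _ ≤ ∑ x ∈ O, 4 * |(k : ℝ)| * Real.log (4 * |(k : ℝ)|) * (1 / max |((3 * x + k : ℤ) : ℝ)| |(k : ℝ)|) :=
        sum_le_sum fun x hx => h_all hk (hOm x hx).2 (odd_ne hZ h0 (hOm x hx).1 (hOm x hx).2)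
    _ = 4 * |(k : ℝ)| * Real.log (4 * |(k : ℝ)|) * ∑ x ∈ O, 1 / max |((3 * x + k : ℤ) : ℝ)| |(k : ℝ)| := by
        rw [mul_sum]
    _ ≤ 4 * |(k : ℝ)| * Real.log (4 * |(k : ℝ)|) * ((δ₁ + δ₂) / (2 * c)) := by
        apply mul_le_mul_of_nonneg_left _ (by positivity)
        rw [le_div_iff₀ (by have := hc.1; linarith), hs]
        linarith
    _ = _ := by
        have := hc.1
        field_simp
        ring

/-- lower bound of the linear form of a cycle -/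
theorem form_lower : ∃ c : ℝ, 0 < c ∧ ∀ Z : Finset ℤ, Z.Nonempty → c ≤ (Z.card : ℝ) ^ 13 * |form Z| := by
  obtain ⟨c, hc, h⟩ := Pool.Agent.H319R2.measure
  refine ⟨c / 2 ^ 13, by positivity, fun Z hZ => ?_⟩
  have h1 := h Z.card (-(odds Z : ℤ)) (Or.inl (by
    have := card_pos.2 hZ
    omega))
  have h2 : (((|((Z.card : ℕ) : ℤ)| + |(-(odds Z : ℤ))| : ℤ)) : ℝ) ≤ 2 * Z.card := by
    have h3 : odds Z ≤ Z.card := card_filter_le _ _
    have h4 : (|((Z.card : ℕ) : ℤ)| + |(-(odds Z : ℤ))| : ℤ) ≤ 2 * Z.card := by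
      rw [abs_neg, Nat.abs_cast, Nat.abs_cast]
      omega
    exact_mod_cast h4
  have h0 : (0 : ℝ) ≤ (((|((Z.card : ℕ) : ℤ)| + |(-(odds Z : ℤ))| : ℤ)) : ℝ) := by positivity
  have e : (((Z.card : ℕ) : ℤ) : ℝ) * Real.log 2 + ((-(odds Z : ℤ) : ℤ) : ℝ) * Real.log 3 = form Z := by
    unfold form; push_cast; ring
  rw [e] at h1
  rw [div_le_iff₀ (by positivity)]
  calc c ≤ _ := h1
    _ ≤ (2 * (Z.card : ℝ)) ^ 13 * |form Z| :=
        mul_le_mul_of_nonneg_right (pow_le_pow_left₀ h0 h2 13) (abs_nonneg _)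
    _ = _ := by ring

/-- sum of logarithms -/
theorem log_fact (N : ℕ) : ∑ i ∈ range N, (Real.log N - Real.log ((i + 1 : ℕ) : ℝ)) ≤ N := by
  rcases Nat.eq_zero_or_pos N with rfl | hN
  · simp
  have h1 : ∀ n : ℕ, ∑ i ∈ range n, Real.log ((i + 1 : ℕ) : ℝ) = Real.log (n.factorial : ℝ) := by
    intro n
    induction n with
    | zero => simp
    | succ n ih =>
      rw [sum_range_succ, ih, Nat.factorial_succ, Nat.cast_mul,
        Real.log_mul (by positivity) (by exact_mod_cast (Nat.factorial_pos n).ne')]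
      ring
  have h2 := Real.pow_div_factorial_le_exp (N : ℝ) (Nat.cast_nonneg N) N
  have hN' : (0 : ℝ) < N := by exact_mod_cast hN
  have hf : (0 : ℝ) < (N.factorial : ℝ) := by exact_mod_cast Nat.factorial_pos N
  have h3 := Real.log_le_log (by positivity) h2
  rw [Real.log_exp, Real.log_div (by positivity) (by positivity), Real.log_pow] at h3
  rw [sum_sub_distrib, h1, sum_const, card_range, nsmul_eq_mul]
  exact h3

theorem log_sum (N : ℕ) (S : Finset ℤ) (hS : ∀ n ∈ S, n ≠ 0 ∧ |n| ≤ N) :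
    ∑ n ∈ S, (Real.log N - Real.log |(n : ℝ)|) ≤ 2 * N := by
  classical
  set g : ℤ → ℝ := fun n => Real.log N - Real.log |(n : ℝ)| with hg
  set P : Finset ℤ := (range N).image fun i => ((i + 1 : ℕ) : ℤ) with hP
  set M : Finset ℤ := (range N).image fun i => -((i + 1 : ℕ) : ℤ) with hM
  have hsub : S ⊆ P ∪ M := by
    intro n hn
    obtain ⟨h1, h2⟩ := hS n hn
    rw [Int.abs_eq_natAbs] at h2
    rw [mem_union, hP, hM, mem_image, mem_image]
    rcases lt_or_gt_of_ne h1 with h | h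
    · right
      refine ⟨n.natAbs - 1, mem_range.2 (by omega), by omega⟩
    · left
      refine ⟨n.natAbs - 1, mem_range.2 (by omega), by omega⟩
  have hg0 : ∀ n ∈ P ∪ M, 0 ≤ g n := by
    intro n hn
    rw [mem_union, hP, hM, mem_image, mem_image] at hn
    have h3 : n ≠ 0 ∧ |n| ≤ N := by
      rcases hn with ⟨i, hi, rfl⟩ | ⟨i, hi, rfl⟩ <;> rw [mem_range] at hi <;> constructor
      · omega
      · rw [Nat.abs_cast]; omega
      · omega
      · rw [abs_neg, Nat.abs_cast]; omega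
    have h4 : (1 : ℝ) ≤ |(n : ℝ)| := by
      have : (1 : ℤ) ≤ |n| := Int.one_le_abs h3.1
      exact_mod_cast this
    have h5 : |(n : ℝ)| ≤ N := by exact_mod_cast h3.2
    have := Real.log_le_log (by linarith) h5
    rw [hg]
    simp only
    linarith
  have hPs : ∑ n ∈ P, g n ≤ N := by
    rw [hP, sum_image (by intro a _ b _ h; simp only [Nat.cast_inj] at h; omega)]
    refine le_trans (le_of_eq ?_) (log_fact N)
    apply sum_congr rfl
    intro i _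
    rw [hg]
    simp only
    rw [Int.cast_natCast, Nat.abs_cast]
  have hMs : ∑ n ∈ M, g n ≤ N := by
    rw [hM, sum_image (by intro a _ b _ h; simp only [neg_inj, Nat.cast_inj] at h; omega)]
    refine le_trans (le_of_eq ?_) (log_fact N)
    apply sum_congr rfl
    intro i _
    rw [hg]
    simp only
    rw [Int.cast_neg, Int.cast_natCast, abs_neg, Nat.abs_cast]
  calc ∑ n ∈ S, g n ≤ ∑ n ∈ P ∪ M, g n := sum_le_sum_of_subset_of_nonneg hsub fun n hn _ => hg0 n hn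
    _ ≤ ∑ n ∈ P, g n + ∑ n ∈ M, g n := by
        rw [← sum_union_inter]
        have : 0 ≤ ∑ n ∈ P ∩ M, g n := sum_nonneg fun n hn => hg0 n (mem_union_left _ (mem_inter.1 hn).1)
        linarith
    _ ≤ 2 * N := by linarith

end Pool.Agent.Q74.RC
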