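import Pool.Agent.Q74.RC.Tree

/-! Densities of merging classes and reciprocals along trajectories, `3x+k` maps. -/

set_option autoImplicit false

namespace Pool.Agent.Q74.RC

open Finset Filter Topology

/-- among the integers of sign `s` those in `S` have the natural density `δ` -/
def HasDensity (s : ℤ) (S : Set ℤ) (δ : ℝ) : Prop :=
  Tendsto (fun N : ℕ => ({n : ℤ | 0 < s * n ∧ s * n ≤ N ∧ n ∈ S}.ncard : ℝ) / N) atTop (𝓝 δ)

/-- the constant of `tree_count` -/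
def TC (c : ℝ) : Prop := 0 < c ∧ ∀ k : ℤ, k % 2 = 1 → ¬ (3 : ℤ) ∣ k → ∀ A : Finset ℤ, Dis k A →
    ∀ X : ℝ, (∀ x ∈ A, max |((3 * x + k : ℤ) : ℝ)| |(k : ℝ)| ≤ X) →
      c * X * ∑ x ∈ A, 1 / max |((3 * x + k : ℤ) : ℝ)| |(k : ℝ)| ≤
        ({z : ℤ | X / 2 < |(z : ℝ)| ∧ |(z : ℝ)| ≤ X ∧ ∃ x ∈ A, 0 < z * (3 * x + k) ∧ Tree k x z}.ncard : ℝ)

theorem side_fin {s : ℤ} (hs : s = 1 ∨ s = -1) (S : Set ℤ) (N : ℕ) :
    {n : ℤ | 0 < s * n ∧ s * n ≤ N ∧ n ∈ S}.Finite := by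
  apply (Set.finite_Icc (-(N : ℤ)) N).subset
  rintro x ⟨h1, h2, -⟩
  rw [Set.mem_Icc]
  rcases hs with rfl | rfl <;> constructor <;> omega

theorem exists_sup (A : Finset ℤ) (k : ℤ) : ∃ X0 : ℕ, ∀ x ∈ A, max |((3 * x + k : ℤ) : ℝ)| |(k : ℝ)| ≤ X0 := by
  refine ⟨∑ x ∈ A, ((3 * x + k).natAbs + k.natAbs), fun x hx => ?_⟩
  have h := Finset.single_le_sum (f := fun x : ℤ => (3 * x + k).natAbs + k.natAbs) (fun _ _ => Nat.zero_le _) hx
  have e1 : |((3 * x + k : ℤ) : ℝ)| = ((3 * x + k).natAbs : ℝ) := by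
    rw [Nat.cast_natAbs, Int.cast_abs]
  have e2 : |(k : ℝ)| = (k.natAbs : ℝ) := by
    rw [Nat.cast_natAbs, Int.cast_abs]
  rw [e1, e2]
  have h' : (((3 * x + k).natAbs : ℝ) + k.natAbs) ≤ ((∑ x ∈ A, ((3 * x + k).natAbs + k.natAbs) : ℕ) : ℝ) := by
    exact_mod_cast h
  refine le_trans ?_ h'
  apply max_le
  · have : (0 : ℝ) ≤ k.natAbs := Nat.cast_nonneg _
    linarith
  · have : (0 : ℝ) ≤ (3 * x + k).natAbs := Nat.cast_nonneg _
    linarith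

/-- lower bound of a density -/
theorem dens_lower {c : ℝ} (hc : TC c) {k : ℤ} (hk : k % 2 = 1) (hk3 : ¬ (3 : ℤ) ∣ k) {s : ℤ} (hs : s = 1 ∨ s = -1)
    {A : Finset ℤ} (hA : Dis k A) (hAs : ∀ x ∈ A, 0 < s * (3 * x + k)) {S : Set ℤ}
    (hS : ∀ x ∈ A, ∀ z, Tree k x z → z ∈ S) {δ : ℝ} (hδ : HasDensity s S δ) :
    2 * c * ∑ x ∈ A, 1 / max |((3 * x + k : ℤ) : ℝ)| |(k : ℝ)| ≤ δ := by
  obtain ⟨X0, hX0⟩ := exists_sup A k
  set a : ℕ → ℝ := fun N => ({n : ℤ | 0 < s * n ∧ s * n ≤ N ∧ n ∈ S}.ncard : ℝ) with ha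
  have h2 : Tendsto (fun N : ℕ => a (2 * N) / ((2 * N : ℕ) : ℝ)) atTop (𝓝 δ) :=
    hδ.comp (tendsto_id.const_mul_atTop' (by norm_num : 0 < 2))
  have h3 : Tendsto (fun N : ℕ => 2 * (a (2 * N) / ((2 * N : ℕ) : ℝ)) - a N / N) atTop (𝓝 (2 * δ - δ)) :=
    (h2.const_mul 2).sub hδ
  rw [show 2 * δ - δ = δ by ring] at h3
  refine ge_of_tendsto h3 ?_
  filter_upwards [eventually_ge_atTop (max X0 1)] with N hN
  have hN1 : 1 ≤ N := (le_max_right _ _).trans hN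
  have hNpos : (0 : ℝ) < N := by exact_mod_cast hN1
  have hNX : (X0 : ℝ) ≤ N := by exact_mod_cast (le_max_left _ _).trans hN
  have h4 := hc.2 k hk hk3 A hA (2 * N) (fun x hx => (hX0 x hx).trans (by linarith))
  have h5 : ({z : ℤ | (2 * N : ℝ) / 2 < |(z : ℝ)| ∧ |(z : ℝ)| ≤ 2 * N ∧ ∃ x ∈ A, 0 < z * (3 * x + k) ∧ Tree k x z}.ncard : ℝ)
      ≤ a (2 * N) - a N := by
    have hsub : {n : ℤ | 0 < s * n ∧ s * n ≤ N ∧ n ∈ S} ∪
        {z : ℤ | (2 * N : ℝ) / 2 < |(z : ℝ)| ∧ |(z : ℝ)| ≤ 2 * N ∧ ∃ x ∈ A, 0 < z * (3 * x + k) ∧ Tree k x z} ⊆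
        {n : ℤ | 0 < s * n ∧ s * n ≤ (2 * N : ℕ) ∧ n ∈ S} := by
      rintro z (⟨g1, g2, g3⟩ | ⟨g1, g2, x, hx, g3, g4⟩)
      · refine ⟨g1, ?_, g3⟩
        push_cast
        omega
      · have hsz : 0 < s * z := by
          have h5 := hAs x hx
          rcases hs with rfl | rfl
          · rw [one_mul] at h5 ⊢
            exact (mul_pos_iff_of_pos_right h5).1 g3
          · have h6 : 3 * x + k < 0 := by omega
            have : z < 0 := by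
              by_contra hcon
              push Not at hcon
              have := mul_nonpos_of_nonneg_of_nonpos hcon h6.le
              omega
            omega
        have habs : |z| = s * z := by
          rcases hs with rfl | rfl
          · rw [abs_of_pos (by omega)]; ring
          · rw [abs_of_neg (by omega)]; ring
        refine ⟨hsz, ?_, hS x hx z g4⟩
        rw [← habs]
        have : ((|z| : ℤ) : ℝ) ≤ ((2 * N : ℕ) : ℝ) := by push_cast; exact g2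
        exact_mod_cast this
    have hdisj : Disjoint {n : ℤ | 0 < s * n ∧ s * n ≤ N ∧ n ∈ S}
        {z : ℤ | (2 * N : ℝ) / 2 < |(z : ℝ)| ∧ |(z : ℝ)| ≤ 2 * N ∧ ∃ x ∈ A, 0 < z * (3 * x + k) ∧ Tree k x z} := by
      rw [Set.disjoint_left]
      rintro z ⟨h1, h2, -⟩ ⟨h3, -, -⟩
      have habs : |z| = s * z := by
        rcases hs with rfl | rfl
        · rw [abs_of_pos (by omega)]; ring
        · rw [abs_of_neg (by omega)]; ring
      have h5 : ((|z| : ℤ) : ℝ) ≤ (N : ℝ) := by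
        rw [habs]
        exact_mod_cast h2
      push_cast at h5
      linarith
    have h6 := Set.ncard_le_ncard hsub (side_fin hs S (2 * N))
    rw [Set.ncard_union_eq hdisj (side_fin hs S N)
      ((side_fin hs S (2 * N)).subset (Set.subset_union_right.trans hsub))] at h6
    have h7 : (({n : ℤ | 0 < s * n ∧ s * n ≤ N ∧ n ∈ S}.ncard : ℝ) +
        {z : ℤ | (2 * N : ℝ) / 2 < |(z : ℝ)| ∧ |(z : ℝ)| ≤ 2 * N ∧ ∃ x ∈ A, 0 < z * (3 * x + k) ∧ Tree k x z}.ncard)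
        ≤ a (2 * N) := by
      show _ ≤ (({n : ℤ | 0 < s * n ∧ s * n ≤ ((2 * N : ℕ) : ℤ) ∧ n ∈ S}.ncard : ℕ) : ℝ)
      rw [← Nat.cast_add]
      exact Nat.cast_le.2 h6
    have h8 : a N = ({n : ℤ | 0 < s * n ∧ s * n ≤ N ∧ n ∈ S}.ncard : ℝ) := rfl
    linarith
  have e1 : 2 * (a (2 * N) / ((2 * N : ℕ) : ℝ)) - a N / N = (a (2 * N) - a N) / N := by
    push_cast
    field_simp
  rw [e1, le_div_iff₀ hNpos]
  calc 2 * c * (∑ x ∈ A, 1 / max |((3 * x + k : ℤ) : ℝ)| |(k : ℝ)|) * N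
      = c * (2 * N) * ∑ x ∈ A, 1 / max |((3 * x + k : ℤ) : ℝ)| |(k : ℝ)| := by ring
    _ ≤ _ := h4
    _ ≤ _ := h5

/-- the merging class -/
def Cls (k a : ℤ) : Set ℤ := {n | ∃ i j : ℕ, (T k)^[i] n = (T k)^[j] a}

theorem cls_dens {k : ℤ} (hk : Odd k) (hk3 : IsCoprime k 3) {s : ℤ} (hs : s = 1 ∨ s = -1) (a : ℤ) :
    ∃ δ : ℝ, 0 ≤ δ ∧ δ ≤ 1 ∧ HasDensity s (Cls k a) δ := by
  obtain ⟨l, h0, h1, hl⟩ := Pool.Agent.H499R2.ND.dens_side hk hk3 hs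
    (Pool.Agent.H499R2.ND.Mg_inv k a)
  exact ⟨l, h0, h1, Pool.Agent.H499R2.ND.HD_ncard hs hl⟩

/-- density of a class and the trajectory -/
theorem traj_lower {c : ℝ} (hc : TC c) {k : ℤ} (hk : k % 2 = 1) (hk3 : ¬ (3 : ℤ) ∣ k) {s : ℤ} (hs : s = 1 ∨ s = -1)
    (a : ℤ) {A : Finset ℤ} (hA : ∀ x ∈ A, x % 2 = 1 ∧ 0 < s * (3 * x + k) ∧ ∃ j : ℕ, (T k)^[j] a = x) {δ : ℝ}
    (hδ : HasDensity s (Cls k a) δ) :
    c * ∑ x ∈ A, 1 / max |((3 * x + k : ℤ) : ℝ)| |(k : ℝ)| ≤ δ := by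
  classical
  have htree : ∀ x ∈ A, ∀ z, Tree k x z → z ∈ Cls k a := by
    rintro x hx z ⟨j, hj⟩
    obtain ⟨h1, -, i, hi⟩ := hA x hx
    refine ⟨j + 1, i + 1, ?_⟩
    rw [Function.iterate_succ_apply', hj, T_three hk h1, Function.iterate_succ_apply', hi]
  set B := A.filter fun x => ∃ j : ℕ, (T k)^[j] a = 3 * x + k with hB
  set G := A.filter fun x => ¬ ∃ j : ℕ, (T k)^[j] a = 3 * x + k with hG
  have hsum : ∑ x ∈ A, 1 / max |((3 * x + k : ℤ) : ℝ)| |(k : ℝ)| =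
      ∑ x ∈ B, 1 / max |((3 * x + k : ℤ) : ℝ)| |(k : ℝ)| + ∑ x ∈ G, 1 / max |((3 * x + k : ℤ) : ℝ)| |(k : ℝ)| :=
    (sum_filter_add_sum_filter_not A _ _).symm
  have hGd : Dis k G := by
    apply dis_traj (a := a) hk
    intro x hx
    rw [hG, mem_filter] at hx
    refine ⟨(hA x hx.1).1, (hA x hx.1).2.2, ?_⟩
    have := hx.2
    push Not at this
    exact this
  have hBd : Dis k B := by
    intro x hx y hy z _ _
    rw [hB, mem_filter] at hx hy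
    exact bad_unique hk (hA x hx.1).1 (hA y hy.1).1 (hA x hx.1).2.2 hx.2 (hA y hy.1).2.2 hy.2
  have h1 := dens_lower hc hk hk3 hs hBd (fun x hx => (hA x (mem_filter.1 hx).1).2.1)
    (fun x hx => htree x (mem_filter.1 hx).1) hδ
  have h2 := dens_lower hc hk hk3 hs hGd (fun x hx => (hA x (mem_filter.1 hx).1).2.1)
    (fun x hx => htree x (mem_filter.1 hx).1) hδ
  rw [hsum]
  linarith

theorem max_le' (x k : ℤ) : max |((3 * x + k : ℤ) : ℝ)| |(k : ℝ)| ≤ 4 * max |(x : ℝ)| |(k : ℝ)| := by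
  have h1 : |((3 * x + k : ℤ) : ℝ)| ≤ 3 * |(x : ℝ)| + |(k : ℝ)| := by
    push_cast
    refine (abs_add_le _ _).trans ?_
    rw [abs_mul]
    norm_num
  have h2 := le_max_left |(x : ℝ)| |(k : ℝ)|
  have h3 := le_max_right |(x : ℝ)| |(k : ℝ)|
  apply max_le
  · linarith
  · have := abs_nonneg (x : ℝ)
    linarith [abs_nonneg (k : ℝ)]

theorem sum_compare {k : ℤ} (hk : k % 2 = 1) (A : Finset ℤ) :
    ∑ x ∈ A, 1 / max |(x : ℝ)| |(k : ℝ)| ≤ 4 * ∑ x ∈ A, 1 / max |((3 * x + k : ℤ) : ℝ)| |(k : ℝ)| := by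
  rw [mul_sum]
  apply sum_le_sum
  intro x _
  have hk0 : (0 : ℝ) < |(k : ℝ)| := abs_pos.2 (by
    have : k ≠ 0 := by rintro rfl; simp at hk
    exact_mod_cast this)
  have h1 : 0 < max |(x : ℝ)| |(k : ℝ)| := lt_of_lt_of_le hk0 (le_max_right _ _)
  have h2 : 0 < max |((3 * x + k : ℤ) : ℝ)| |(k : ℝ)| := lt_of_lt_of_le hk0 (le_max_right _ _)
  rw [mul_one_div, div_le_div_iff₀ h1 h2, one_mul]
  exact max_le' x k

end Pool.Agent.Q74.RC
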