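import Pool.Agent.Q74.RC.Cyc

/-! Many cycles for `k = 4^n - 3^n`. -/

set_option autoImplicit false

namespace Pool.Agent.Q74.RC

open Finset Filter Topology

/-- number of odd terms among the first `m` -/
def oc (k : ℤ) : ℕ → ℤ → ℕ
  | 0, _ => 0
  | m + 1, x => oc k m x + if (T k)^[m] x % 2 = 1 then 1 else 0

theorem shift {k : ℤ} (hk : k % 2 = 1) (m : ℕ) (x t : ℤ) :
    (T k)^[m] (x + 2 ^ m * t) = (T k)^[m] x + 3 ^ (oc k m x) * t ∧ oc k m (x + 2 ^ m * t) = oc k m x := by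
  induction m generalizing t with
  | zero => simp [oc]
  | succ m ih =>
    have e : x + 2 ^ (m + 1) * t = x + 2 ^ m * (2 * t) := by ring
    obtain ⟨h1, h2⟩ := ih (2 * t)
    rw [e, Function.iterate_succ_apply', h1, Function.iterate_succ_apply']
    have hpar : ((T k)^[m] x + 3 ^ (oc k m x) * (2 * t)) % 2 = ((T k)^[m] x) % 2 := by
      have : 3 ^ (oc k m x) * (2 * t) = 2 * (3 ^ (oc k m x) * t) := by ring
      rw [this]; omega
    have hoc : oc k (m + 1) (x + 2 ^ m * (2 * t)) = oc k (m + 1) x := by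
      show oc k m (x + 2 ^ m * (2 * t)) + _ = oc k m x + _
      rw [h2, h1, hpar]
    refine ⟨?_, hoc⟩
    show T k _ = T k _ + 3 ^ (oc k m x + _) * t
    by_cases hx : (T k)^[m] x % 2 = 1
    · rw [if_pos hx, T_odd (hpar.trans hx), T_odd hx]
      have : 3 * ((T k)^[m] x + 3 ^ (oc k m x) * (2 * t)) + k =
          (3 * (T k)^[m] x + k) + 2 * (3 ^ (oc k m x + 1) * t) := by ring
      rw [this]; omega
    · have hx' : (T k)^[m] x % 2 = 0 := by omega
      rw [if_neg hx, T_even (hpar.trans hx'), T_even hx']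
      have : (T k)^[m] x + 3 ^ (oc k m x) * (2 * t) = (T k)^[m] x + 2 * (3 ^ (oc k m x) * t) := by ring
      rw [this, add_zero]; omega

theorem modk {k : ℤ} (hk : k % 2 = 1) (m : ℕ) (x : ℤ) : k ∣ 2 ^ m * (T k)^[m] x - 3 ^ (oc k m x) * x := by
  induction m with
  | zero => simp [oc]
  | succ m ih =>
    rw [Function.iterate_succ_apply']
    show k ∣ 2 ^ (m + 1) * T k _ - 3 ^ (oc k m x + _) * x
    obtain ⟨q, hq⟩ := ih
    by_cases hx : (T k)^[m] x % 2 = 1
    · rw [if_pos hx, T_odd hx]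
      have h2 : 2 * ((3 * (T k)^[m] x + k) / 2) = 3 * (T k)^[m] x + k := by omega
      refine ⟨3 * q + 2 ^ m, ?_⟩
      calc 2 ^ (m + 1) * ((3 * (T k)^[m] x + k) / 2) - 3 ^ (oc k m x + 1) * x
          = 2 ^ m * (2 * ((3 * (T k)^[m] x + k) / 2)) - 3 * (3 ^ (oc k m x) * x) := by ring
        _ = 3 * (2 ^ m * (T k)^[m] x - 3 ^ (oc k m x) * x) + 2 ^ m * k := by rw [h2]; ring
        _ = _ := by rw [hq]; ring
    · have hx' : (T k)^[m] x % 2 = 0 := by omega
      rw [if_neg hx, T_even hx', add_zero]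
      have h2 : 2 * ((T k)^[m] x / 2) = (T k)^[m] x := by omega
      refine ⟨q, ?_⟩
      calc 2 ^ (m + 1) * ((T k)^[m] x / 2) - 3 ^ (oc k m x) * x
          = 2 ^ m * (2 * ((T k)^[m] x / 2)) - 3 ^ (oc k m x) * x := by ring
        _ = _ := by rw [h2, hq]

theorem count_oc {k : ℤ} (hk : k % 2 = 1) (m : ℕ) : ∀ n : ℕ,
    ((range (2 ^ m)).filter fun r : ℕ => oc k m (r : ℤ) = n).card = m.choose n := by
  induction m with
  | zero =>
    intro n
    cases n with
    | zero => simp [oc]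
    | succ n => simp [oc]
  | succ m ih =>
    intro n
    rw [card_filter]
    have hr : range (2 ^ (m + 1)) = range (2 ^ m + 2 ^ m) := by rw [pow_succ]; ring_nf
    rw [hr, sum_range_add, ← sum_add_distrib]
    have hb : ∀ r : ℕ, (if oc k (m + 1) ((r : ℕ) : ℤ) = n then 1 else 0) +
        (if oc k (m + 1) (((2 ^ m + r : ℕ)) : ℤ) = n then 1 else 0) =
        (if oc k m (r : ℤ) = n then 1 else 0) + (if oc k m (r : ℤ) + 1 = n then 1 else 0) := by
      intro r
      have e : (((2 ^ m + r : ℕ)) : ℤ) = (r : ℤ) + 2 ^ m * 1 := by push_cast; ring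
      obtain ⟨h1, h2⟩ := shift hk m (r : ℤ) 1
      rw [e]
      show (if oc k m (r : ℤ) + _ = n then 1 else 0) + (if oc k m ((r : ℤ) + 2 ^ m * 1) + _ = n then 1 else 0) = _
      rw [h2, h1]
      have h3 : (3 : ℤ) ^ (oc k m (r : ℤ)) % 2 = 1 := by
        rw [← Int.odd_iff]; exact Odd.pow (by decide)
      by_cases hx : (T k)^[m] (r : ℤ) % 2 = 1
      · have h4 : ¬ ((T k)^[m] (r : ℤ) + 3 ^ (oc k m (r : ℤ)) * 1) % 2 = 1 := by omega
        rw [if_pos hx, if_neg h4, add_zero]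
        exact add_comm _ _
      · have h4 : ((T k)^[m] (r : ℤ) + 3 ^ (oc k m (r : ℤ)) * 1) % 2 = 1 := by omega
        rw [if_neg hx, if_pos h4, add_zero]
    rw [sum_congr rfl fun r _ => hb r, sum_add_distrib, ← card_filter, ← card_filter, ih n]
    cases n with
    | zero => simp
    | succ n =>
      have : ((range (2 ^ m)).filter fun r : ℕ => oc k m (r : ℤ) + 1 = n + 1) =
          (range (2 ^ m)).filter fun r : ℕ => oc k m (r : ℤ) = n := by
        ext r; simp
      rw [this, ih n, Nat.choose_succ_succ]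
      ring

/-- the periodic points -/
theorem exists_per {k : ℤ} (hk : k % 2 = 1) {n : ℕ} (hkn : k = 4 ^ n - 3 ^ n) {r : ℤ} (hr : oc k (2 * n) r = n) :
    ∃ t : ℤ, (T k)^[2 * n] (r + 2 ^ (2 * n) * t) = r + 2 ^ (2 * n) * t := by
  have h4 : (2 : ℤ) ^ (2 * n) = 4 ^ n := by rw [pow_mul]; norm_num
  have h1 := modk hk (2 * n) r
  rw [hr, h4] at h1
  have h2 : k ∣ 4 ^ n * ((T k)^[2 * n] r - r) := by
    have e : (4 : ℤ) ^ n * ((T k)^[2 * n] r - r) = (4 ^ n * (T k)^[2 * n] r - 3 ^ n * r) - k * r := by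
      rw [hkn]; ring
    rw [e]
    exact Int.dvd_sub h1 (Dvd.intro _ rfl)
  have hcop : IsCoprime k ((4 : ℤ) ^ n) := by
    apply IsCoprime.pow_right
    have : Odd k := Int.odd_iff.2 hk
    have h3 : IsCoprime k 2 := by
      obtain ⟨q, hq⟩ := this
      exact ⟨1, -q, by rw [hq]; ring⟩
    have := IsCoprime.mul_right h3 h3
    norm_num at this
    exact this
  obtain ⟨t, ht⟩ := hcop.dvd_of_dvd_mul_left h2
  refine ⟨t, ?_⟩
  rw [(shift hk (2 * n) r t).1, hr, h4]
  have : (T k)^[2 * n] r = r + k * t := by linarith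
  rw [this, hkn]
  ring

theorem oc_add (k : ℤ) (m n : ℕ) (x : ℤ) : oc k (m + n) x = oc k m x + oc k n ((T k)^[m] x) := by
  induction n with
  | zero => simp [oc]
  | succ n ih =>
    have e : oc k (m + (n + 1)) x = oc k (m + n) x + (if (T k)^[n + m] x % 2 = 1 then 1 else 0) := by
      rw [Nat.add_comm n m]; rfl
    have e' : oc k (n + 1) ((T k)^[m] x) = oc k n ((T k)^[m] x) +
      (if (T k)^[n] ((T k)^[m] x) % 2 = 1 then 1 else 0) := rfl
    rw [e, e', ih, Function.iterate_add_apply]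
    ring

theorem oc_mul {k x : ℤ} {p : ℕ} (h : (T k)^[p] x = x) (m : ℕ) : oc k (m * p) x = m * oc k p x := by
  induction m with
  | zero => simp [oc]
  | succ m ih =>
    rw [Nat.succ_mul, oc_add, ih, per_mul h m]
    ring

theorem oc_card (k : ℤ) (p : ℕ) (x : ℤ) : oc k p x = ((range p).filter fun i => (T k)^[i] x % 2 = 1).card := by
  induction p with
  | zero => simp [oc]
  | succ p ih =>
    rw [card_filter, sum_range_succ, ← card_filter, ← ih]
    rfl

/-- the cycle through a periodic point with `n` odd terms in `2 n` steps -/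
theorem cycle_through {k x : ℤ} {n : ℕ} (hn : 1 ≤ n) (h : (T k)^[2 * n] x = x) (ho : oc k (2 * n) x = n) :
    ∃ Z : Finset ℤ, IsCycle k Z ∧ x ∈ Z ∧ (0 : ℤ) ∉ Z ∧ Z.card = 2 * odds Z := by
  classical
  set p := Function.minimalPeriod (T k) x with hp
  have hper : Function.IsPeriodicPt (T k) (2 * n) x := h
  have hp1 : 0 < p := hper.minimalPeriod_pos (by omega)
  have hpx : (T k)^[p] x = x := Function.isPeriodicPt_minimalPeriod (T k) x
  obtain ⟨m, hm⟩ := hper.minimalPeriod_dvd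
  have hinj : Set.InjOn (fun i => (T k)^[i] x) (range p : Finset ℕ) := by
    intro i hi j hj hij
    rw [mem_coe, mem_range] at hi hj
    exact Function.iterate_injOn_Iio_minimalPeriod hi hj hij
  have hcard : ((range p).image fun i => (T k)^[i] x).card = p := by
    rw [card_image_of_injOn hinj, card_range]
  have hodds : odds ((range p).image fun i => (T k)^[i] x) = oc k p x := by
    unfold odds
    rw [filter_image, card_image_of_injOn (hinj.mono (by
      intro i hi
      exact (mem_filter.1 hi).1)), oc_card]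
  have hcyc : IsCycle k ((range p).image fun i => (T k)^[i] x) := ⟨x, p, hp1, hpx, rfl⟩
  have hx : x ∈ (range p).image fun i => (T k)^[i] x := mem_image.2 ⟨0, mem_range.2 hp1, rfl⟩
  have h2n : 2 * n = m * p := by rw [hm]; ring
  have h3 : m * oc k p x = n := by rw [← oc_mul hpx, ← h2n, ho]
  have hm0 : 0 < m := by
    rcases Nat.eq_zero_or_pos m with h0 | h0
    · rw [h0] at h3; omega
    · exact h0
  refine ⟨_, hcyc, hx, ?_, ?_⟩
  · intro h0
    obtain ⟨j, hj⟩ := (cyc_iff hcyc h0 x).1 hx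
    have hz : ∀ j : ℕ, (T k)^[j] 0 = 0 := by
      intro j
      induction j with
      | zero => rfl
      | succ j ih => rw [Function.iterate_succ_apply', ih, T_even (by norm_num)]; rfl
    rw [hz j] at hj
    rw [← hj, oc_card] at ho
    have : ((range (2 * n)).filter fun i => (T k)^[i] 0 % 2 = 1) = ∅ := by
      rw [filter_eq_empty_iff]
      intro i _
      rw [hz i]
      norm_num
    rw [this, card_empty] at ho
    omega
  · rw [hcard, hodds]
    have h4 : m * p = m * (2 * oc k p x) := by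
      rw [← h2n]
      calc 2 * n = 2 * (m * oc k p x) := by rw [h3]
        _ = _ := by ring
    exact Nat.eq_of_mul_eq_mul_left hm0 h4

theorem central (n : ℕ) (hn : 1 ≤ n) : (16 : ℝ) ^ n ≤ 4 * n * ((n.centralBinom : ℕ) : ℝ) ^ 2 := by
  induction n, hn using Nat.le_induction with
  | base => norm_num [Nat.centralBinom, Nat.choose]
  | succ n hn ih =>
    have h1 := Nat.succ_mul_centralBinom_succ n
    have h2 : ((n : ℝ) + 1) * (((n + 1).centralBinom : ℕ) : ℝ) = 2 * (2 * n + 1) * ((n.centralBinom : ℕ) : ℝ) := by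
      exact_mod_cast h1
    have hn' : (0 : ℝ) < n := by exact_mod_cast hn
    have h3 : ((n : ℝ) + 1) ^ 2 * (((n + 1).centralBinom : ℕ) : ℝ) ^ 2 =
        4 * (2 * n + 1) ^ 2 * ((n.centralBinom : ℕ) : ℝ) ^ 2 := by
      calc ((n : ℝ) + 1) ^ 2 * (((n + 1).centralBinom : ℕ) : ℝ) ^ 2
          = (((n : ℝ) + 1) * (((n + 1).centralBinom : ℕ) : ℝ)) ^ 2 := by ring
        _ = _ := by rw [h2]; ring
    have h5 : 0 ≤ ((n.centralBinom : ℕ) : ℝ) ^ 2 := by positivity
    have h6 : 4 * ((n : ℝ) + 1) * ((((n + 1).centralBinom : ℕ) : ℝ) ^ 2) * (n + 1) =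
        16 * (2 * n + 1) ^ 2 * ((n.centralBinom : ℕ) : ℝ) ^ 2 := by
      calc 4 * ((n : ℝ) + 1) * ((((n + 1).centralBinom : ℕ) : ℝ) ^ 2) * (n + 1)
          = 4 * (((n : ℝ) + 1) ^ 2 * (((n + 1).centralBinom : ℕ) : ℝ) ^ 2) := by ring
        _ = _ := by rw [h3]; ring
    have h7 : (16 : ℝ) ^ (n + 1) * (n + 1) ≤ 4 * ((n : ℝ) + 1) * ((((n + 1).centralBinom : ℕ) : ℝ) ^ 2) * (n + 1) := by
      rw [h6]
      calc (16 : ℝ) ^ (n + 1) * (n + 1) = 16 * (n + 1) * 16 ^ n := by ring
        _ ≤ 16 * (n + 1) * (4 * n * ((n.centralBinom : ℕ) : ℝ) ^ 2) :=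
            mul_le_mul_of_nonneg_left ih (by positivity)
        _ ≤ _ := by nlinarith
    have h8 := le_of_mul_le_mul_right h7 (by positivity : (0 : ℝ) < (n : ℝ) + 1)
    push_cast
    exact h8

/-- **Sharpness.** -/
theorem sharp (n : ℕ) (hn : 1 ≤ n) : ∃ F : Finset (Finset ℤ), (∀ Z ∈ F, IsCycle (4 ^ n - 3 ^ n) Z ∧ (0 : ℤ) ∉ Z) ∧
    ((4 : ℝ) ^ n - 3 ^ n) / (16 * Real.sqrt n) ≤ ∑ Z ∈ F, |form Z| := by
  classical
  obtain ⟨k, hkn⟩ : ∃ k : ℤ, k = 4 ^ n - 3 ^ n := ⟨_, rfl⟩
  have hk : k % 2 = 1 := by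
    obtain ⟨m, rfl⟩ : ∃ m, n = m + 1 := ⟨n - 1, by omega⟩
    have h1 : (4 : ℤ) ^ (m + 1) = 2 * (2 * 4 ^ m) := by ring
    have h2 : (3 : ℤ) ^ (m + 1) % 2 = 1 := by
      rw [← Int.odd_iff]; exact Odd.pow (by decide)
    rw [hkn, h1]
    omega
  rw [← hkn]
  set R := (range (2 ^ (2 * n))).filter fun r : ℕ => oc k (2 * n) (r : ℤ) = n with hR
  have hRc : R.card = n.centralBinom := by
    rw [hR, count_oc hk, Nat.centralBinom]
  have hex : ∀ r : ℕ, ∃ xz : ℤ × Finset ℤ, r ∈ R → ((∃ t : ℤ, xz.1 = r + 2 ^ (2 * n) * t) ∧ IsCycle k xz.2 ∧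
      xz.1 ∈ xz.2 ∧ (0 : ℤ) ∉ xz.2 ∧ xz.2.card = 2 * odds xz.2) := by
    intro r
    by_cases hr : r ∈ R
    · have ho := (mem_filter.1 hr).2
      obtain ⟨t, ht⟩ := exists_per hk hkn ho
      have ho' : oc k (2 * n) ((r : ℤ) + 2 ^ (2 * n) * t) = n := by rw [(shift hk _ _ _).2, ho]
      obtain ⟨Z, h1, h2, h3, h4⟩ := cycle_through hn ht ho'
      exact ⟨((r : ℤ) + 2 ^ (2 * n) * t, Z), fun _ => ⟨⟨t, rfl⟩, h1, h2, h3, h4⟩⟩
    · exact ⟨(0, ∅), fun h => absurd h hr⟩
  choose xz hxz using hex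
  refine ⟨R.image fun r => (xz r).2, ?_, ?_⟩
  · intro Z hZ
    obtain ⟨r, hr, rfl⟩ := mem_image.1 hZ
    exact ⟨(hxz r hr).2.1, (hxz r hr).2.2.2.1⟩
  · have hform : ∀ Z ∈ R.image (fun r => (xz r).2), |form Z| = (Z.card : ℝ) * (Real.log (4 / 3) / 2) := by
      intro Z hZ
      obtain ⟨r, hr, rfl⟩ := mem_image.1 hZ
      have h1 := (hxz r hr).2.2.2.2
      have h2 : (((xz r).2.card : ℕ) : ℝ) = 2 * (odds (xz r).2 : ℝ) := by exact_mod_cast h1
      have h3 : form (xz r).2 = ((xz r).2.card : ℝ) * (Real.log (4 / 3) / 2) := by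
        unfold form
        rw [Real.log_div (by norm_num) (by norm_num), show (4 : ℝ) = 2 ^ 2 by norm_num, Real.log_pow, h2]
        push_cast
        ring
      rw [h3, abs_of_nonneg]
      have : 0 ≤ Real.log (4 / 3) := Real.log_nonneg (by norm_num)
      positivity
    rw [sum_congr rfl hform, ← sum_mul]
    have hU : R.card ≤ ∑ Z ∈ R.image (fun r => (xz r).2), Z.card := by
      have hinj : Set.InjOn (fun r => (xz r).1) (R : Set ℕ) := by
        intro a ha b hb hab
        simp only at hab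
        obtain ⟨s, hs⟩ := (hxz a ha).1
        obtain ⟨t, ht⟩ := (hxz b hb).1
        rw [hs, ht] at hab
        have ha' := mem_range.1 (mem_filter.1 ha).1
        have hb' := mem_range.1 (mem_filter.1 hb).1
        have h5 : ((a : ℤ)) % (2 ^ (2 * n)) = (b : ℤ) % (2 ^ (2 * n)) := by
          have h6 : ((a : ℤ) + 2 ^ (2 * n) * s) % (2 ^ (2 * n)) = ((b : ℤ) + 2 ^ (2 * n) * t) % (2 ^ (2 * n)) := by
            rw [hab]
          rwa [Int.add_mul_emod_self_left, Int.add_mul_emod_self_left] at h6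
        rw [Int.emod_eq_of_lt (by omega) (by exact_mod_cast ha'), Int.emod_eq_of_lt (by omega) (by exact_mod_cast hb')]
          at h5
        exact_mod_cast h5
      calc R.card = (R.image fun r => (xz r).1).card := (card_image_of_injOn hinj).symm
        _ ≤ ((R.image (fun r => (xz r).2)).biUnion id).card := by
            apply card_le_card
            intro x hx
            obtain ⟨r, hr, rfl⟩ := mem_image.1 hx
            rw [mem_biUnion]
            exact ⟨(xz r).2, mem_image_of_mem _ hr, (hxz r hr).2.2.1⟩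
        _ ≤ _ := card_biUnion_le
    have hU' : (n.centralBinom : ℝ) ≤ ∑ Z ∈ R.image (fun r => (xz r).2), (Z.card : ℝ) := by
      rw [← hRc]
      exact_mod_cast hU
    have hlog : 1 / 4 ≤ Real.log (4 / 3) := by
      have := Real.one_sub_inv_le_log_of_pos (show (0 : ℝ) < 4 / 3 by norm_num)
      norm_num at this
      linarith
    have hc := central n hn
    have hn' : (0 : ℝ) < n := by exact_mod_cast hn
    have hs : 0 < Real.sqrt n := Real.sqrt_pos.2 hn'
    have hcb : (4 : ℝ) ^ n ≤ 2 * Real.sqrt n * (n.centralBinom : ℝ) := by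
      apply (pow_le_pow_iff_left₀ (by positivity) (by positivity) (two_ne_zero)).1
      calc ((4 : ℝ) ^ n) ^ 2 = 16 ^ n := by rw [← pow_mul, mul_comm, pow_mul]; norm_num
        _ ≤ 4 * n * ((n.centralBinom : ℕ) : ℝ) ^ 2 := hc
        _ = (2 * Real.sqrt n * (n.centralBinom : ℝ)) ^ 2 := by
            rw [mul_pow, mul_pow, Real.sq_sqrt hn'.le]; ring
    calc ((4 : ℝ) ^ n - 3 ^ n) / (16 * Real.sqrt n) ≤ (4 : ℝ) ^ n / (16 * Real.sqrt n) := by
          apply div_le_div_of_nonneg_right _ (by positivity)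
          have : (0 : ℝ) < 3 ^ n := by positivity
          linarith
      _ ≤ (2 * Real.sqrt n * (n.centralBinom : ℝ)) / (16 * Real.sqrt n) :=
          div_le_div_of_nonneg_right hcb (by positivity)
      _ = (n.centralBinom : ℝ) * (1 / 8) := by field_simp; ring
      _ ≤ (∑ Z ∈ R.image (fun r => (xz r).2), (Z.card : ℝ)) * (Real.log (4 / 3) / 2) := by
          apply mul_le_mul hU' (by linarith) (by norm_num)
          exact sum_nonneg fun _ _ => Nat.cast_nonneg _

end Pool.Agent.Q74.RC
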