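import Pool.Agent.Q74.RC.Cyc

/-! Sums over all cycles, `3x+k` maps. -/

set_option autoImplicit false

namespace Pool.Agent.Q74.RC

open Finset Filter Topology

/-- the far part of a sum of logarithms -/
theorem far_sum {k : ℤ} (hk : k % 2 = 1) (A : Finset ℤ) (hA : ∀ x ∈ A, |(k : ℝ)| ≤ |(x : ℝ)|) :
    ∑ x ∈ A, |(Real.log |((3 * x + k : ℤ) : ℝ)| - Real.log |((3 * x : ℤ) : ℝ)|)| ≤
      2 * |(k : ℝ)| * ∑ x ∈ A, 1 / max |((3 * x + k : ℤ) : ℝ)| |(k : ℝ)| := by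
  rw [mul_sum]
  exact sum_le_sum fun x hx => h_far hk (hA x hx)

/-- the near part -/
theorem near_sum {k : ℤ} (A : Finset ℤ)
    (hA : ∀ x ∈ A, x % 2 = 1 ∧ 3 * x + k ≠ 0 ∧ |(x : ℝ)| < |(k : ℝ)|) :
    ∑ x ∈ A, |(Real.log |((3 * x + k : ℤ) : ℝ)| - Real.log |((3 * x : ℤ) : ℝ)|)| ≤ 16 * |(k : ℝ)| := by
  classical
  set N : ℕ := 4 * k.natAbs with hN
  have hNr : (N : ℝ) = 4 * |(k : ℝ)| := by
    rw [hN]; push_cast
    rw [Nat.cast_natAbs, Int.cast_abs]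
  have key : ∀ f : ℤ → ℤ, Function.Injective f → (∀ x ∈ A, 1 ≤ |((f x : ℤ) : ℝ)| ∧ |((f x : ℤ) : ℝ)| ≤ 4 * |(k : ℝ)|) →
      ∑ x ∈ A, (Real.log N - Real.log |((f x : ℤ) : ℝ)|) ≤ 8 * |(k : ℝ)| := by
    intro f hf h
    have h1 := log_sum N (A.image f) (by
      intro n hn
      obtain ⟨x, hx, rfl⟩ := mem_image.1 hn
      obtain ⟨h2, h3⟩ := h x hx
      constructor
      · rintro h0
        rw [h0] at h2
        norm_num at h2
      · rw [← hNr] at h3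
        exact_mod_cast h3)
    rw [sum_image (fun a _ b _ h => hf h)] at h1
    refine h1.trans (le_of_eq ?_)
    rw [hNr]; ring
  have h1 := key (fun x => 3 * x + k) (fun a b h => by simp only at h; omega) (fun x hx => by
    obtain ⟨a1, a2, a3⟩ := hA x hx
    obtain ⟨b1, b2, b3, b4⟩ := h_near a1 a2 a3
    exact ⟨b2, b1⟩)
  have h2 := key (fun x => 3 * x) (fun a b h => by simp only at h; omega) (fun x hx => by
    obtain ⟨a1, a2, a3⟩ := hA x hx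
    obtain ⟨b1, b2, b3, b4⟩ := h_near a1 a2 a3
    exact ⟨b4, b3⟩)
  have h3 : ∑ x ∈ A, |(Real.log |((3 * x + k : ℤ) : ℝ)| - Real.log |((3 * x : ℤ) : ℝ)|)| ≤
      ∑ x ∈ A, (Real.log N - Real.log |((3 * x + k : ℤ) : ℝ)|) + ∑ x ∈ A, (Real.log N - Real.log |((3 * x : ℤ) : ℝ)|) := by
    rw [← sum_add_distrib]
    apply sum_le_sum
    intro x hx
    obtain ⟨a1, a2, a3⟩ := hA x hx
    obtain ⟨b1, b2, b3, b4⟩ := h_near a1 a2 a3
    have l1 := Real.log_le_log (by linarith) b1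
    have l3 := Real.log_le_log (by linarith) b3
    rw [hNr, abs_le]
    constructor <;> linarith
  linarith

/-- odd elements of the union of cycles -/
theorem union_facts {k : ℤ} {F : Finset (Finset ℤ)} (hF : ∀ Z ∈ F, IsCycle k Z) (g : ℤ → ℝ) :
    ∑ Z ∈ F, ∑ x ∈ Z, g x = ∑ x ∈ F.biUnion id, g x := by
  classical
  rw [sum_biUnion (cyc_disj hF)]
  rfl

theorem basin_cls {k : ℤ} {Z : Finset ℤ} (hZ : IsCycle k Z) {x z : ℤ} (hx : x ∈ Z) (hz : z ∈ Cls k x) : z ∈ Basin k Z := by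
  obtain ⟨i, j, h⟩ := hz
  refine ⟨i, ?_⟩
  rw [h]
  exact (cyc_iff hZ hx _).2 ⟨j, rfl⟩

theorem form_abs {k : ℤ} (hk : k % 2 = 1) {F : Finset (Finset ℤ)} (hF : ∀ Z ∈ F, IsCycle k Z ∧ (0 : ℤ) ∉ Z) :
    ∑ Z ∈ F, |form Z| ≤ ∑ x ∈ (F.biUnion id).filter (fun x => x % 2 = 1),
      |(Real.log |((3 * x + k : ℤ) : ℝ)| - Real.log |((3 * x : ℤ) : ℝ)|)| := by
  classical
  rw [sum_filter, ← union_facts (fun Z hZ => (hF Z hZ).1)]
  apply sum_le_sum
  intro Z hZ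
  rw [form_eq hk (hF Z hZ).1 (hF Z hZ).2, ← sum_filter]
  exact abs_sum_le_sum_abs _ _

/-- the upper bound of `cmp_sum` -/
def Up (e C : ℝ) : Prop := ∀ k : ℤ, k % 2 = 1 → ¬ (3 : ℤ) ∣ k → ∀ A : Finset ℤ, (∀ x ∈ A, x % 2 = 1) → Cmp k A →
      ∑ x ∈ A, 1 / max |((3 * x + k : ℤ) : ℝ)| |(k : ℝ)| ≤ C ∧
      ∀ y : ℝ, 0 < y → (∀ x ∈ A, ∀ z ∈ Cls k x, y < |(z : ℝ)|) →
        ∑ x ∈ A, 1 / max |((3 * x + k : ℤ) : ℝ)| |(k : ℝ)| ≤ C * (|(k : ℝ)| / y) ^ e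

/-- **All cycles.** -/
theorem all_cycles {e C : ℝ} (he0 : 0 < e) (hC : 0 < C) (h : Up e C) :
    ∀ k : ℤ, k % 2 = 1 → ¬ (3 : ℤ) ∣ k → ∀ F : Finset (Finset ℤ), (∀ Z ∈ F, IsCycle k Z ∧ (0 : ℤ) ∉ Z) →
      ∑ Z ∈ F, |form Z| ≤ ((8 * C + 2 * C + 16) * 2 ^ e) * |(k : ℝ)| ∧
      ∀ y : ℝ, 0 < y → (∀ Z ∈ F, ∀ z ∈ Basin k Z, y < |(z : ℝ)|) →
        ∑ Z ∈ F, ∑ x ∈ Z, 1 / max |(x : ℝ)| |(k : ℝ)| ≤ ((8 * C + 2 * C + 16) * 2 ^ e) * (|(k : ℝ)| / y) ^ e ∧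
        ∑ Z ∈ F, |form Z| ≤ ((8 * C + 2 * C + 16) * 2 ^ e) * |(k : ℝ)| * (|(k : ℝ)| / y) ^ e := by
  classical
  intro k hk hk3 F hF
  have hk1 := k_pos hk
  have h2e : (1 : ℝ) ≤ 2 ^ e := Real.one_le_rpow (by norm_num) he0.le
  set U : Finset ℤ := F.biUnion id with hU
  have hUm : ∀ x, x ∈ U ↔ ∃ Z ∈ F, x ∈ Z := by
    intro x
    rw [hU, mem_biUnion]
    simp
  set A : Finset ℤ := U.filter (fun x => x % 2 = 1) with hA
  have hUper : ∀ x ∈ U, Per k x ∧ T k x ∈ U := by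
    intro x hx
    obtain ⟨Z, hZ, hxZ⟩ := (hUm x).1 hx
    exact ⟨cyc_per (hF Z hZ).1 hxZ, (hUm _).2 ⟨Z, hZ, cyc_T (hF Z hZ).1 hxZ⟩⟩
  have hAm : ∀ x ∈ A, x % 2 = 1 ∧ 3 * x + k ≠ 0 := by
    intro x hx
    obtain ⟨h1, h2⟩ := mem_filter.1 hx
    obtain ⟨Z, hZ, hxZ⟩ := (hUm x).1 h1
    exact ⟨h2, odd_ne (hF Z hZ).1 (hF Z hZ).2 hxZ h2⟩
  have hcmpA : Cmp k A := cmp_per fun x hx => (hUper x (mem_filter.1 hx).1).1
  set B := A.filter (fun x : ℤ => |(k : ℝ)| ≤ |(x : ℝ)|) with hB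
  set N := A.filter (fun x : ℤ => ¬ |(k : ℝ)| ≤ |(x : ℝ)|) with hN
  have hsplit : ∑ x ∈ A, |(Real.log |((3 * x + k : ℤ) : ℝ)| - Real.log |((3 * x : ℤ) : ℝ)|)| =
      ∑ x ∈ B, |(Real.log |((3 * x + k : ℤ) : ℝ)| - Real.log |((3 * x : ℤ) : ℝ)|)| +
      ∑ x ∈ N, |(Real.log |((3 * x + k : ℤ) : ℝ)| - Real.log |((3 * x : ℤ) : ℝ)|)| :=
    (sum_filter_add_sum_filter_not A _ _).symm
  have hfar := far_sum hk B (fun x hx => (mem_filter.1 hx).2)
  have hnear := near_sum (k := k) N (fun x hx => ⟨(hAm x (mem_filter.1 hx).1).1, (hAm x (mem_filter.1 hx).1).2,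
    not_le.1 (mem_filter.1 hx).2⟩)
  have hform := form_abs hk hF
  rw [← hU, ← hA] at hform
  have hmono : ∑ x ∈ B, 1 / max |((3 * x + k : ℤ) : ℝ)| |(k : ℝ)| ≤ ∑ x ∈ A, 1 / max |((3 * x + k : ℤ) : ℝ)| |(k : ℝ)| :=
    sum_le_sum_of_subset_of_nonneg (filter_subset _ _) fun x _ _ => by
      have := mx_pos hk x
      positivity
  obtain ⟨hb, htail⟩ := h k hk hk3 A (fun x hx => (hAm x hx).1) hcmpA
  have htot : ∑ Z ∈ F, |form Z| ≤ (2 * C + 16) * |(k : ℝ)| := by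
    have h1 : 2 * |(k : ℝ)| * ∑ x ∈ B, 1 / max |((3 * x + k : ℤ) : ℝ)| |(k : ℝ)| ≤ 2 * |(k : ℝ)| * C :=
      mul_le_mul_of_nonneg_left (hmono.trans hb) (by positivity)
    have : ∑ Z ∈ F, |form Z| ≤ 2 * |(k : ℝ)| * C + 16 * |(k : ℝ)| := by linarith
    linarith
  refine ⟨?_, fun y hy hyz => ?_⟩
  · refine htot.trans ?_
    apply mul_le_mul_of_nonneg_right _ (by linarith)
    nlinarith
  have hcls : ∀ x ∈ A, ∀ z ∈ Cls k x, y < |(z : ℝ)| := by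
    intro x hx z hz
    obtain ⟨Z, hZ, hxZ⟩ := (hUm x).1 (mem_filter.1 hx).1
    exact hyz Z hZ z (basin_cls (hF Z hZ).1 hxZ hz)
  have htl := htail y hy hcls
  have hr0 : 0 ≤ (|(k : ℝ)| / y) ^ e := Real.rpow_nonneg (div_nonneg (abs_nonneg _) hy.le) _
  have hUy : ∀ x ∈ U, y < |(x : ℝ)| := by
    intro x hx
    obtain ⟨Z, hZ, hxZ⟩ := (hUm x).1 hx
    exact hyz Z hZ x ⟨0, hxZ⟩
  constructor
  · -- reciprocals
    rw [union_facts (fun Z hZ => (hF Z hZ).1), ← hU]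
    set f : ℤ → ℝ := fun x => 1 / max |(x : ℝ)| |(k : ℝ)| with hf
    have hmp : ∀ x : ℤ, 0 < max |(x : ℝ)| |(k : ℝ)| := fun x => lt_of_lt_of_le (by linarith) (le_max_right _ _)
    have hf0 : ∀ x, 0 < f x := fun x => by
      have := hmp x
      rw [hf]
      positivity
    have hTsum : ∑ x ∈ U, (f (T k x) - f x) = 0 := by
      rw [sum_sub_distrib, sum_T hUper f, sub_self]
    rw [← sum_filter_add_sum_filter_not U (fun x => x % 2 = 1)] at hTsum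
    have hsplit2 : ∑ x ∈ U, f x = ∑ x ∈ A, f x + ∑ x ∈ U.filter (fun x => ¬ x % 2 = 1), f x :=
      (sum_filter_add_sum_filter_not U _ _).symm
    have hodd : - ∑ x ∈ A, f x ≤ ∑ x ∈ A, (f (T k x) - f x) := by
      rw [← sum_neg_distrib]
      apply sum_le_sum
      intro x _
      have := hf0 (T k x)
      linarith
    have hAf : ∑ x ∈ A, f x ≤ 4 * ∑ x ∈ A, 1 / max |((3 * x + k : ℤ) : ℝ)| |(k : ℝ)| := sum_compare hk A
    have heven : ∀ x ∈ U.filter (fun x => ¬ x % 2 = 1), |((T k x : ℤ) : ℝ)| = |(x : ℝ)| / 2 := by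
      intro x hx
      have hx2 := (mem_filter.1 hx).2
      have h5 : (x : ℤ) = 2 * T k x := by rw [T_even (by omega)]; omega
      have h6 : (x : ℝ) = 2 * ((T k x : ℤ) : ℝ) := by exact_mod_cast h5
      rw [h6, abs_mul]
      norm_num
    have hev1 : ∀ x ∈ U.filter (fun x => ¬ x % 2 = 1), 0 ≤ f (T k x) - f x := by
      intro x hx
      have h5 := heven x hx
      rw [hf]
      simp only
      rw [sub_nonneg]
      apply one_div_le_one_div_of_le (hmp _)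
      apply max_le_max _ le_rfl
      rw [h5]
      linarith [abs_nonneg (x : ℝ)]
    have hev2 : ∀ x ∈ U.filter (fun x => ¬ x % 2 = 1), 2 * |(k : ℝ)| ≤ |(x : ℝ)| → f x ≤ f (T k x) - f x := by
      intro x hx hxk
      have h5 := heven x hx
      have e1 : f x = 1 / |(x : ℝ)| := by
        rw [hf]; simp only; rw [max_eq_left (by linarith)]
      have e2 : f (T k x) = 2 * (1 / |(x : ℝ)|) := by
        rw [hf]; simp only; rw [h5, max_eq_left (by linarith)]; field_simp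
      rw [e1, e2]
      linarith
    rcases le_or_gt (2 * |(k : ℝ)|) y with hyk | hyk
    · have h7 : ∑ x ∈ U.filter (fun x => ¬ x % 2 = 1), f x ≤
          ∑ x ∈ U.filter (fun x => ¬ x % 2 = 1), (f (T k x) - f x) :=
        sum_le_sum fun x hx => hev2 x hx (hyk.trans (hUy x (mem_filter.1 hx).1).le)
      have h8 : ∑ x ∈ U, f x ≤ 8 * (C * (|(k : ℝ)| / y) ^ e) := by
        rw [hsplit2]
        linarith
      refine h8.trans ?_
      have : 8 * C ≤ (8 * C + 2 * C + 16) * 2 ^ e := by nlinarith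
      calc 8 * (C * (|(k : ℝ)| / y) ^ e) = (8 * C) * (|(k : ℝ)| / y) ^ e := by ring
        _ ≤ _ := mul_le_mul_of_nonneg_right this hr0
    · set E := U.filter (fun x => ¬ x % 2 = 1) with hE
      have h6 : ∑ x ∈ E, f x = ∑ x ∈ E.filter (fun x : ℤ => 2 * |(k : ℝ)| ≤ |(x : ℝ)|), f x +
          ∑ x ∈ E.filter (fun x : ℤ => ¬ 2 * |(k : ℝ)| ≤ |(x : ℝ)|), f x := (sum_filter_add_sum_filter_not E _ _).symm
      have h7 : ∑ x ∈ E.filter (fun x : ℤ => 2 * |(k : ℝ)| ≤ |(x : ℝ)|), f x ≤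
          ∑ x ∈ E, (f (T k x) - f x) := by
        refine (sum_le_sum fun x hx => hev2 x (mem_filter.1 hx).1 (mem_filter.1 hx).2).trans ?_
        exact sum_le_sum_of_subset_of_nonneg (filter_subset _ _) fun x hx _ => hev1 x hx
      have h9 : ∑ x ∈ E.filter (fun x : ℤ => ¬ 2 * |(k : ℝ)| ≤ |(x : ℝ)|), f x ≤ 5 := by
        have hcard : ((E.filter (fun x : ℤ => ¬ 2 * |(k : ℝ)| ≤ |(x : ℝ)|)).card : ℝ) ≤ 5 * |(k : ℝ)| := by
          have hsub : E.filter (fun x : ℤ => ¬ 2 * |(k : ℝ)| ≤ |(x : ℝ)|) ⊆ Finset.Icc (-(2 * |k|)) (2 * |k|) := by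
            intro x hx
            have h10 := (mem_filter.1 hx).2
            rw [not_le] at h10
            have h11 : |x| < 2 * |k| := by exact_mod_cast h10
            rw [abs_lt] at h11
            rw [mem_Icc]
            omega
          have h12 := card_le_card hsub
          rw [Int.card_Icc] at h12
          have h13 : (1 : ℤ) ≤ |k| := by exact_mod_cast hk1
          have h14 : (((E.filter (fun x : ℤ => ¬ 2 * |(k : ℝ)| ≤ |(x : ℝ)|)).card : ℤ)) ≤ 5 * |k| := by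
            omega
          exact_mod_cast h14
        calc ∑ x ∈ E.filter (fun x : ℤ => ¬ 2 * |(k : ℝ)| ≤ |(x : ℝ)|), f x
            ≤ ∑ x ∈ E.filter (fun x : ℤ => ¬ 2 * |(k : ℝ)| ≤ |(x : ℝ)|), 1 / |(k : ℝ)| := by
              apply sum_le_sum
              intro x _
              exact one_div_le_one_div_of_le (by linarith) (le_max_right _ _)
          _ = (E.filter (fun x : ℤ => ¬ 2 * |(k : ℝ)| ≤ |(x : ℝ)|)).card * (1 / |(k : ℝ)|) := by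
              rw [sum_const, nsmul_eq_mul]
          _ ≤ 5 * |(k : ℝ)| * (1 / |(k : ℝ)|) := mul_le_mul_of_nonneg_right hcard (by positivity)
          _ = 5 := by field_simp
      have h8 : ∑ x ∈ U, f x ≤ 8 * C + 5 := by
        rw [hsplit2, h6]
        linarith
      have h10 : 1 ≤ 2 ^ e * (|(k : ℝ)| / y) ^ e := by
        rw [← Real.mul_rpow (by norm_num) (by positivity)]
        apply Real.one_le_rpow _ he0.le
        rw [← mul_div_assoc, le_div_iff₀ hy]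
        linarith
      calc ∑ x ∈ U, f x ≤ 8 * C + 5 := h8
        _ ≤ (8 * C + 2 * C + 16) * (2 ^ e * (|(k : ℝ)| / y) ^ e) := by nlinarith
        _ = _ := by ring
  · rcases le_or_gt |(k : ℝ)| y with hyk | hyk
    · have hN0 : N = ∅ := by
        rw [hN, filter_eq_empty_iff]
        intro x hx
        rw [not_not]
        exact hyk.trans (hUy x (mem_filter.1 hx).1).le
      rw [hN0] at hsplit
      rw [sum_empty, add_zero] at hsplit
      have h1 : 2 * |(k : ℝ)| * ∑ x ∈ B, 1 / max |((3 * x + k : ℤ) : ℝ)| |(k : ℝ)| ≤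
          2 * |(k : ℝ)| * (C * (|(k : ℝ)| / y) ^ e) :=
        mul_le_mul_of_nonneg_left (hmono.trans htl) (by positivity)
      have h3 : ∑ Z ∈ F, |form Z| ≤ 2 * |(k : ℝ)| * (C * (|(k : ℝ)| / y) ^ e) := by linarith
      refine h3.trans ?_
      have : 2 * C ≤ (8 * C + 2 * C + 16) * 2 ^ e := by nlinarith
      calc 2 * |(k : ℝ)| * (C * (|(k : ℝ)| / y) ^ e) = (2 * C) * (|(k : ℝ)| * (|(k : ℝ)| / y) ^ e) := by ring
        _ ≤ ((8 * C + 2 * C + 16) * 2 ^ e) * (|(k : ℝ)| * (|(k : ℝ)| / y) ^ e) :=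
            mul_le_mul_of_nonneg_right this (by positivity)
        _ = _ := by ring
    · have h10 : 1 ≤ (|(k : ℝ)| / y) ^ e := by
        apply Real.one_le_rpow _ he0.le
        rw [le_div_iff₀ hy]
        linarith
      refine htot.trans ?_
      have h11 : (2 * C + 16) ≤ (8 * C + 2 * C + 16) * 2 ^ e := by nlinarith
      calc (2 * C + 16) * |(k : ℝ)| ≤ ((8 * C + 2 * C + 16) * 2 ^ e) * |(k : ℝ)| :=
            mul_le_mul_of_nonneg_right h11 (by linarith)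
        _ ≤ ((8 * C + 2 * C + 16) * 2 ^ e) * |(k : ℝ)| * (|(k : ℝ)| / y) ^ e := by
            have : 0 ≤ ((8 * C + 2 * C + 16) * 2 ^ e) * |(k : ℝ)| := by positivity
            nlinarith

end Pool.Agent.Q74.RC
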