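import Pool.Agent.Results.MP_d0d59f_nt.UniformPredecessors
import Pool.Agent.H499R2.NDCor3

/-! Trees of predecessors of the numbers `3 x + k`, `x` odd, for the `3x+k` maps. -/

set_option autoImplicit false

namespace Pool.Agent.Q74.RC

open Finset Filter Topology

/-- the `3x+k` map on the integers -/
def T (k x : ℤ) : ℤ := if x % 2 = 0 then x / 2 else (3 * x + k) / 2

theorem T_even {k x : ℤ} (h : x % 2 = 0) : T k x = x / 2 := by unfold T; rw [if_pos h]

theorem T_odd {k x : ℤ} (h : x % 2 = 1) : T k x = (3 * x + k) / 2 := by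
  unfold T; rw [if_neg (by omega)]

theorem T_three {k x : ℤ} (hk : k % 2 = 1) (h : x % 2 = 1) : T k (3 * x + k) = T k x := by
  rw [T_odd h, T_even (by omega)]

/-- `x` is periodic -/
def Per (k x : ℤ) : Prop := ∃ p : ℕ, 1 ≤ p ∧ (T k)^[p] x = x

theorem per_iter {k x : ℤ} (h : Per k x) (j : ℕ) : Per k ((T k)^[j] x) := by
  obtain ⟨p, hp, hx⟩ := h
  refine ⟨p, hp, ?_⟩
  rw [← Function.iterate_add_apply, Nat.add_comm, Function.iterate_add_apply, hx]

theorem per_mul {k x : ℤ} {p : ℕ} (h : (T k)^[p] x = x) (n : ℕ) : (T k)^[n * p] x = x := by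
  induction n with
  | zero => simp
  | succ n ih => rw [Nat.succ_mul, Function.iterate_add_apply, h, ih]

/-- periodic points with the same image are equal -/
theorem per_inj {k x y : ℤ} (hx : Per k x) (hy : Per k y) (h : T k x = T k y) : x = y := by
  obtain ⟨p, hp, hx⟩ := hx
  obtain ⟨q, hq, hy⟩ := hy
  have h1 : (T k)^[q * p] x = x := per_mul hx q
  have h2 : (T k)^[q * p] y = y := by rw [Nat.mul_comm]; exact per_mul hy p
  obtain ⟨m, hm⟩ : ∃ m, q * p = m + 1 := ⟨q * p - 1, by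
    have : 0 < q * p := Nat.mul_pos (by omega) (by omega)
    omega⟩
  rw [hm, Function.iterate_succ_apply] at h1 h2
  rw [← h1, ← h2, h]

/-- `z` is in the tree of `x`: its trajectory passes through `3 x + k` -/
def Tree (k x z : ℤ) : Prop := ∃ j : ℕ, (T k)^[j] z = 3 * x + k

/-- the trees are pairwise disjoint -/
def Dis (k : ℤ) (A : Finset ℤ) : Prop := ∀ x ∈ A, ∀ y ∈ A, ∀ z, Tree k x z → Tree k y z → x = y

theorem dis_aux {k : ℤ} (hk : k % 2 = 1) {x y z : ℤ} (hx : x % 2 = 1) {i j : ℕ} (hij : i ≤ j)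
    (hi : (T k)^[i] z = 3 * x + k) (hj : (T k)^[j] z = 3 * y + k) :
    x = y ∨ ∃ m : ℕ, (T k)^[m + 1] x = 3 * y + k := by
  rcases Nat.eq_or_lt_of_le hij with h | h
  · subst h
    left
    omega
  · right
    obtain ⟨m, rfl⟩ : ∃ m, j = m + 1 + i := ⟨j - i - 1, by omega⟩
    refine ⟨m, ?_⟩
    rw [Function.iterate_add_apply, hi, Function.iterate_succ_apply, T_three hk hx] at hj
    rw [Function.iterate_succ_apply]
    exact hj

theorem dis_per {k : ℤ} (hk : k % 2 = 1) {A : Finset ℤ} (hA : ∀ x ∈ A, x % 2 = 1 ∧ Per k x) : Dis k A := by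
  have key : ∀ x ∈ A, ∀ y ∈ A, ∀ m : ℕ, (T k)^[m + 1] x ≠ 3 * y + k := by
    intro x hx y hy m h
    have h1 : Per k (3 * y + k) := by rw [← h]; exact per_iter (hA x hx).2 _
    have h2 := per_inj h1 (hA y hy).2 (T_three hk (hA y hy).1)
    have := (hA y hy).1
    omega
  rintro x hx y hy z ⟨i, hi⟩ ⟨j, hj⟩
  rcases le_total i j with h | h
  · rcases dis_aux hk (hA x hx).1 h hi hj with h1 | ⟨m, h1⟩
    · exact h1
    · exact absurd h1 (key x hx y hy m)
  · rcases dis_aux hk (hA y hy).1 h hj hi with h1 | ⟨m, h1⟩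
    · exact h1.symm
    · exact absurd h1 (key y hy x hx m)

/-- along a trajectory -/
theorem dis_traj {k : ℤ} (hk : k % 2 = 1) {a : ℤ} {A : Finset ℤ}
    (hA : ∀ x ∈ A, x % 2 = 1 ∧ (∃ j : ℕ, (T k)^[j] a = x) ∧ ∀ j : ℕ, (T k)^[j] a ≠ 3 * x + k) : Dis k A := by
  have key : ∀ x ∈ A, ∀ y ∈ A, ∀ m : ℕ, (T k)^[m + 1] x ≠ 3 * y + k := by
    intro x hx y hy m h
    obtain ⟨j, hj⟩ := (hA x hx).2.1
    apply (hA y hy).2.2 (m + 1 + j)
    rw [Function.iterate_add_apply, hj, h]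
  rintro x hx y hy z ⟨i, hi⟩ ⟨j, hj⟩
  rcases le_total i j with h | h
  · rcases dis_aux hk (hA x hx).1 h hi hj with h1 | ⟨m, h1⟩
    · exact h1
    · exact absurd h1 (key x hx y hy m)
  · rcases dis_aux hk (hA y hy).1 h hj hi with h1 | ⟨m, h1⟩
    · exact h1.symm
    · exact absurd h1 (key y hy x hx m)

/-- at most one odd point `x` of a trajectory is such that `3 x + k` is in the trajectory too -/
theorem bad_unique {k : ℤ} (hk : k % 2 = 1) {a x y : ℤ} (hx : x % 2 = 1) (hy : y % 2 = 1)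
    (hx1 : ∃ j : ℕ, (T k)^[j] a = x) (hx2 : ∃ j : ℕ, (T k)^[j] a = 3 * x + k)
    (hy1 : ∃ j : ℕ, (T k)^[j] a = y) (hy2 : ∃ j : ℕ, (T k)^[j] a = 3 * y + k) : x = y := by
  -- a later return
  have per_of : ∀ {i j : ℕ}, i < j → (T k)^[i] a = (T k)^[j] a → ∀ l, i ≤ l → Per k ((T k)^[l] a) := by
    intro i j hij h l hl
    have h1 : Per k ((T k)^[i] a) := by
      refine ⟨j - i, by omega, ?_⟩
      rw [← Function.iterate_add_apply, Nat.sub_add_cancel hij.le, h]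
    have h2 := per_iter h1 (l - i)
    rwa [← Function.iterate_add_apply, Nat.sub_add_cancel hl] at h2
  -- the entry
  have ent : ∀ {u : ℤ}, u % 2 = 1 → (∃ j : ℕ, (T k)^[j] a = u) → (∃ j : ℕ, (T k)^[j] a = 3 * u + k) →
      ∃ i : ℕ, ¬ Per k ((T k)^[i] a) ∧ Per k ((T k)^[i + 1] a) ∧
        ((T k)^[i] a = u ∨ (T k)^[i] a = 3 * u + k) := by
    rintro u hu ⟨i, hi⟩ ⟨j, hj⟩
    have hne : u ≠ 3 * u + k := by omega
    have himg : (T k)^[i + 1] a = (T k)^[j + 1] a := by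
      rw [Function.iterate_succ_apply', Function.iterate_succ_apply', hi, hj, T_three hk hu]
    have hij : i ≠ j := by
      rintro rfl
      rw [hi] at hj
      exact hne hj
    have hnp : ¬ (Per k u ∧ Per k (3 * u + k)) := by
      rintro ⟨h1, h2⟩
      exact hne (per_inj h1 h2 (T_three hk hu).symm)
    rcases lt_or_gt_of_ne hij with h | h
    · have hp : ∀ l, i + 1 ≤ l → Per k ((T k)^[l] a) := per_of (by omega) himg
      have h1 : Per k (3 * u + k) := by rw [← hj]; exact hp j (by omega)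
      exact ⟨i, by rw [hi]; exact fun h2 => hnp ⟨h2, h1⟩, hp _ le_rfl, Or.inl hi⟩
    · have hp : ∀ l, j + 1 ≤ l → Per k ((T k)^[l] a) := per_of (by omega) himg.symm
      have h1 : Per k u := by rw [← hi]; exact hp i (by omega)
      exact ⟨j, by rw [hj]; exact fun h2 => hnp ⟨h1, h2⟩, hp _ le_rfl, Or.inr hj⟩
  obtain ⟨i, hi1, hi2, hi3⟩ := ent hx hx1 hx2
  obtain ⟨j, hj1, hj2, hj3⟩ := ent hy hy1 hy2
  have hij : i = j := by
    rcases lt_trichotomy i j with h | h | h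
    · exfalso
      apply hj1
      have := per_iter hi2 (j - (i + 1))
      rwa [← Function.iterate_add_apply, Nat.sub_add_cancel h] at this
    · exact h
    · exfalso
      apply hi1
      have := per_iter hj2 (i - (j + 1))
      rwa [← Function.iterate_add_apply, Nat.sub_add_cancel h] at this
  subst hij
  rcases hi3 with h1 | h1 <;> rcases hj3 with h2 | h2 <;> rw [h1] at h2 <;> omega

/-- the number of integers in the trees -/
theorem tree_count : ∃ c : ℝ, 0 < c ∧ ∀ k : ℤ, k % 2 = 1 → ¬ (3 : ℤ) ∣ k → ∀ A : Finset ℤ, Dis k A →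
    ∀ X : ℝ, (∀ x ∈ A, max |((3 * x + k : ℤ) : ℝ)| |(k : ℝ)| ≤ X) →
      c * X * ∑ x ∈ A, 1 / max |((3 * x + k : ℤ) : ℝ)| |(k : ℝ)| ≤
        ({z : ℤ | X / 2 < |(z : ℝ)| ∧ |(z : ℝ)| ≤ X ∧ ∃ x ∈ A, 0 < z * (3 * x + k) ∧ Tree k x z}.ncard : ℝ) := by
  classical
  obtain ⟨c, C, hc, -, h⟩ := Pool.Agent.Results.MP_d0d59f_nt.UniformPredecessors.result
  refine ⟨c, hc, fun k hk hk3 A hA X hX => ?_⟩
  set B : ℤ → Set ℤ := fun x => {z : ℤ | X / 2 < |(z : ℝ)| ∧ |(z : ℝ)| ≤ X ∧ 0 < z * (3 * x + k) ∧ Tree k x z}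
    with hB
  have hfin : ∀ x, (B x).Finite := fun x =>
    Pool.Agent.Results.MP_d0d59f_nt.UniformPredecessors.fin X (fun z => 0 < z * (3 * x + k) ∧ Tree k x z)
  have hone : ∀ x ∈ A, c * X / max |((3 * x + k : ℤ) : ℝ)| |(k : ℝ)| ≤ ((hfin x).toFinset.card : ℝ) := by
    intro x hx
    have h3 : ¬ (3 : ℤ) ∣ 3 * x + k := by
      intro h3
      exact hk3 ((Int.dvd_add_right (Dvd.intro x rfl)).1 h3)
    refine (h k (3 * x + k) hk hk3 h3 X (hX x hx)).trans ?_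
    rw [← Set.ncard_eq_toFinset_card _ (hfin x)]
    have hsub : {z : ℤ | X / 2 < |(z : ℝ)| ∧ |(z : ℝ)| ≤ X ∧ 0 < z * (3 * x + k) ∧
        ∃ j : ℕ, (j : ℝ) ≤ C * (1 + Real.log (X / |((3 * x + k : ℤ) : ℝ)|)) ∧
          (Pool.Agent.Results.MP_d0d59f_nt.UniformPredecessors.T k)^[j] z = 3 * x + k} ⊆ B x := by
      rintro z ⟨h1, h2, h4, j, -, h5⟩
      exact ⟨h1, h2, h4, j, h5⟩
    exact_mod_cast Set.ncard_le_ncard hsub (hfin x)
  have hunion : ((A.biUnion fun x => (hfin x).toFinset : Finset ℤ) : Set ℤ) ⊆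
      {z : ℤ | X / 2 < |(z : ℝ)| ∧ |(z : ℝ)| ≤ X ∧ ∃ x ∈ A, 0 < z * (3 * x + k) ∧ Tree k x z} := by
    intro z hz
    rw [mem_coe, mem_biUnion] at hz
    obtain ⟨x, hx, hz⟩ := hz
    rw [Set.Finite.mem_toFinset] at hz
    obtain ⟨h1, h2, h3, h4⟩ := hz
    exact ⟨h1, h2, x, hx, h3, h4⟩
  have hcard : (A.biUnion fun x => (hfin x).toFinset).card = ∑ x ∈ A, (hfin x).toFinset.card := by
    apply card_biUnion
    intro x hx y hy hxy
    rw [Function.onFun, disjoint_left]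
    intro z hz hz'
    rw [Set.Finite.mem_toFinset] at hz hz'
    exact hxy (hA x hx y hy z hz.2.2.2 hz'.2.2.2)
  have hle := Set.ncard_le_ncard hunion
    (Pool.Agent.Results.MP_d0d59f_nt.UniformPredecessors.fin X (fun z => ∃ x ∈ A, 0 < z * (3 * x + k) ∧ Tree k x z))
  rw [Set.ncard_coe_finset, hcard] at hle
  have hle' : (∑ x ∈ A, ((hfin x).toFinset.card : ℝ)) ≤
      ({z : ℤ | X / 2 < |(z : ℝ)| ∧ |(z : ℝ)| ≤ X ∧ ∃ x ∈ A, 0 < z * (3 * x + k) ∧ Tree k x z}.ncard : ℝ) := by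
    exact_mod_cast hle
  refine le_trans ?_ hle'
  rw [mul_sum]
  apply sum_le_sum
  intro x hx
  have := hone x hx
  rwa [mul_one_div]

end Pool.Agent.Q74.RC
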