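import Pool.Agent.Q74.RC.Dens
import Pool.Agent.Results.MP_d0d59f_nt.UniformBelowEntropy

/-! Upper bounds of sums of reciprocals, `3x+k` maps. -/

set_option autoImplicit false

namespace Pool.Agent.Q74.RC

open Finset Filter Topology

theorem window {c : ℝ} (hc : TC c) {k : ℤ} (hk : k % 2 = 1) (hk3 : ¬ (3 : ℤ) ∣ k) {A : Finset ℤ} (hA : Dis k A)
    {P : ℤ → Prop} (hP : ∀ x ∈ A, ∀ z, Tree k x z → P z) {B : ℝ} (hB : ∀ X : ℝ, 1 ≤ X → Pool.Agent.Results.MP_d0d59f_nt.UniformBelowEntropy.count P X ≤ B * X) :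
    ∑ x ∈ A, 1 / max |((3 * x + k : ℤ) : ℝ)| |(k : ℝ)| ≤ B / c := by
  obtain ⟨X0, hX0⟩ := exists_sup A k
  set X : ℝ := max X0 1 with hX
  have hX1 : 1 ≤ X := le_max_right _ _
  have hXp : 0 < X := by linarith
  have h1 := hc.2 k hk hk3 A hA X (fun x hx => (hX0 x hx).trans (le_max_left _ _))
  have h2 : ({z : ℤ | X / 2 < |(z : ℝ)| ∧ |(z : ℝ)| ≤ X ∧ ∃ x ∈ A, 0 < z * (3 * x + k) ∧ Tree k x z}.ncard : ℝ)
      ≤ Pool.Agent.Results.MP_d0d59f_nt.UniformBelowEntropy.count P X := by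
    unfold Pool.Agent.Results.MP_d0d59f_nt.UniformBelowEntropy.count
    have hsub : {z : ℤ | X / 2 < |(z : ℝ)| ∧ |(z : ℝ)| ≤ X ∧ ∃ x ∈ A, 0 < z * (3 * x + k) ∧ Tree k x z} ⊆
        {n : ℤ | |(n : ℝ)| ≤ X ∧ P n} := by
      rintro z ⟨-, h2, x, hx, -, h3⟩
      exact ⟨h2, hP x hx z h3⟩
    have := Set.ncard_le_ncard hsub (Pool.Agent.Results.MP_d0d59f_nt.UniformBelowEntropy.fin_set P X)
    exact_mod_cast this
  have h3 := (h1.trans h2).trans (hB X hX1)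
  have h4 := hc.1
  rw [le_div_iff₀ h4]
  have h5 : X * ((∑ x ∈ A, 1 / max |((3 * x + k : ℤ) : ℝ)| |(k : ℝ)|) * c) ≤ X * B := by linarith
  exact le_of_mul_le_mul_left h5 hXp

theorem cnt_true (X : ℝ) (hX : 1 ≤ X) : Pool.Agent.Results.MP_d0d59f_nt.UniformBelowEntropy.count (fun _ => True) X ≤ 3 * X := by
  unfold Pool.Agent.Results.MP_d0d59f_nt.UniformBelowEntropy.count
  have hsub : {n : ℤ | |(n : ℝ)| ≤ X ∧ True} ⊆ ((Finset.Icc (-⌊X⌋) ⌊X⌋ : Finset ℤ) : Set ℤ) := by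
    rintro z ⟨hz, -⟩
    rw [Finset.coe_Icc, Set.mem_Icc]
    have h1 := abs_le.1 hz
    constructor
    · have : ((-z : ℤ) : ℝ) ≤ X := by push_cast; linarith
      have := Int.le_floor.2 this
      omega
    · exact Int.le_floor.2 h1.2
  have h1 := Set.ncard_le_ncard hsub (Finset.finite_toSet _)
  rw [Set.ncard_coe_finset, Int.card_Icc] at h1
  have h2 : 0 ≤ ⌊X⌋ := Int.floor_nonneg.2 (by linarith)
  have h3 : ((⌊X⌋ + 1 - -⌊X⌋).toNat : ℤ) = 2 * ⌊X⌋ + 1 := by omega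
  have h4 : (({n : ℤ | |(n : ℝ)| ≤ X ∧ True}.ncard : ℤ)) ≤ 2 * ⌊X⌋ + 1 := by
    rw [← h3]; exact_mod_cast h1
  have h5 : ({n : ℤ | |(n : ℝ)| ≤ X ∧ True}.ncard : ℝ) ≤ 2 * (⌊X⌋ : ℝ) + 1 := by exact_mod_cast h4
  have h6 := Int.floor_le X
  linarith

/-- the trajectory of `a` passes through `b` -/
def Reach (k a b : ℤ) : Prop := ∃ j : ℕ, (T k)^[j] a = b

theorem Reach.refl (k a : ℤ) : Reach k a a := ⟨0, rfl⟩

theorem Reach.trans {k a b c : ℤ} (h : Reach k a b) (h' : Reach k b c) : Reach k a c := by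
  obtain ⟨i, hi⟩ := h
  obtain ⟨j, hj⟩ := h'
  exact ⟨j + i, by rw [Function.iterate_add_apply, hi, hj]⟩

theorem cls_refl (k a : ℤ) : a ∈ Cls k a := ⟨0, 0, rfl⟩

theorem cls_symm {k a b : ℤ} (h : a ∈ Cls k b) : b ∈ Cls k a := by
  obtain ⟨i, j, h⟩ := h
  exact ⟨j, i, h.symm⟩

theorem cls_trans {k a b c : ℤ} (h : a ∈ Cls k b) (h' : b ∈ Cls k c) : a ∈ Cls k c := by
  obtain ⟨i, j, h⟩ := h
  obtain ⟨i', j', h'⟩ := h'
  refine ⟨i' + i, j + j', ?_⟩
  rw [Function.iterate_add_apply, h, ← Function.iterate_add_apply, Nat.add_comm i' j,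
    Function.iterate_add_apply, h', ← Function.iterate_add_apply]

theorem reach_cls {k a b : ℤ} (h : Reach k a b) : a ∈ Cls k b := by
  obtain ⟨j, hj⟩ := h
  exact ⟨j, 0, hj⟩

/-- no two branches of a class -/
def Cmp (k : ℤ) (A : Finset ℤ) : Prop := ∀ x ∈ A, ∀ y ∈ A, y ∈ Cls k x → Reach k x y ∨ Reach k y x

theorem cmp_max {k : ℤ} {A : Finset ℤ} (hA : Cmp k A) (B : Finset ℤ) (hB : B ⊆ A) (hne : B.Nonempty)
    (hm : ∀ x ∈ B, ∀ y ∈ B, y ∈ Cls k x) : ∃ a ∈ B, ∀ b ∈ B, Reach k a b := by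
  classical
  induction B using Finset.induction_on with
  | empty => exact absurd hne Finset.not_nonempty_empty
  | insert b B hb ih =>
    rcases B.eq_empty_or_nonempty with h | h
    · subst h
      refine ⟨b, by simp, fun c hc => ?_⟩
      have : c = b := by simpa using hc
      rw [this]
      exact Reach.refl k b
    · obtain ⟨a, ha, h1⟩ := ih (fun x hx => hB (mem_insert_of_mem hx)) h
        (fun x hx y hy => hm x (mem_insert_of_mem hx) y (mem_insert_of_mem hy))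
      rcases hA a (hB (mem_insert_of_mem ha)) b (hB (mem_insert_self _ _))
        (hm a (mem_insert_of_mem ha) b (mem_insert_self _ _)) with h2 | h2
      · refine ⟨a, mem_insert_of_mem ha, fun c hc => ?_⟩
        rcases mem_insert.1 hc with rfl | hc
        · exact h2
        · exact h1 c hc
      · refine ⟨b, mem_insert_self _ _, fun c hc => ?_⟩
        rcases mem_insert.1 hc with rfl | hc
        · exact Reach.refl k c
        · exact h2.trans (h1 c hc)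

theorem tree_cls {k x z : ℤ} (hk : k % 2 = 1) (hx : x % 2 = 1) (h : Tree k x z) : z ∈ Cls k x := by
  obtain ⟨j, hj⟩ := h
  refine ⟨j + 1, 1, ?_⟩
  rw [Function.iterate_succ_apply', hj, T_three hk hx]
  rfl

/-- the two halves of a set without branches have disjoint trees -/
theorem cmp_split {k : ℤ} (hk : k % 2 = 1) {A : Finset ℤ} (ho : ∀ x ∈ A, x % 2 = 1) (hA : Cmp k A) :
    ∃ B G : Finset ℤ, B ⊆ A ∧ G ⊆ A ∧ Dis k B ∧ Dis k G ∧
      ∀ f : ℤ → ℝ, ∑ x ∈ A, f x = ∑ x ∈ B, f x + ∑ x ∈ G, f x := by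
  classical
  refine ⟨A.filter fun x => ∃ w ∈ A, Reach k w (3 * x + k), A.filter fun x => ¬ ∃ w ∈ A, Reach k w (3 * x + k),
    filter_subset _ _, filter_subset _ _, ?_, ?_, fun f => (sum_filter_add_sum_filter_not A _ _).symm⟩
  · intro x hx y hy z hzx hzy
    rw [mem_filter] at hx hy
    obtain ⟨hx, wx, hwx, hx2⟩ := hx
    obtain ⟨hy, wy, hwy, hy2⟩ := hy
    have h3 : ∀ u : ℤ, u % 2 = 1 → (3 * u + k) ∈ Cls k u := fun u hu =>
      ⟨1, 1, T_three hk hu⟩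
    have c1 : y ∈ Cls k x := cls_trans (cls_symm (tree_cls hk (ho y hy) hzy)) (tree_cls hk (ho x hx) hzx)
    have c2 : wx ∈ Cls k x := cls_trans (reach_cls hx2) (h3 x (ho x hx))
    have c3 : wy ∈ Cls k x := cls_trans (cls_trans (reach_cls hy2) (h3 y (ho y hy))) c1
    have hall : ∀ u ∈ ({x, y, wx, wy} : Finset ℤ), u ∈ Cls k x := by
      intro u hu
      simp only [mem_insert, mem_singleton] at hu
      rcases hu with rfl | rfl | rfl | rfl
      · exact cls_refl _ _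
      · exact c1
      · exact c2
      · exact c3
    obtain ⟨a, -, ha⟩ := cmp_max hA {x, y, wx, wy} (by
        intro u hu
        simp only [mem_insert, mem_singleton] at hu
        rcases hu with rfl | rfl | rfl | rfl
        · exact hx
        · exact hy
        · exact hwx
        · exact hwy) ⟨x, by simp⟩
      (fun u hu v hv => cls_trans (hall v hv) (cls_symm (hall u hu)))
    exact bad_unique hk (ho x hx) (ho y hy) (ha x (by simp)) ((ha wx (by simp)).trans hx2)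
      (ha y (by simp)) ((ha wy (by simp)).trans hy2)
  · have key : ∀ x ∈ A.filter (fun x => ¬ ∃ w ∈ A, Reach k w (3 * x + k)),
        ∀ y ∈ A.filter (fun x => ¬ ∃ w ∈ A, Reach k w (3 * x + k)), ∀ m : ℕ, (T k)^[m + 1] x ≠ 3 * y + k := by
      intro x hx y hy m h
      exact (mem_filter.1 hy).2 ⟨x, (mem_filter.1 hx).1, m + 1, h⟩
    rintro x hx y hy z ⟨i, hi⟩ ⟨j, hj⟩
    rcases le_total i j with h | h
    · rcases dis_aux hk (ho x (mem_filter.1 hx).1) h hi hj with h1 | ⟨m, h1⟩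
      · exact h1
      · exact absurd h1 (key x hx y hy m)
    · rcases dis_aux hk (ho y (mem_filter.1 hy).1) h hj hi with h1 | ⟨m, h1⟩
      · exact h1.symm
      · exact absurd h1 (key y hy x hx m)

theorem cmp_per {k : ℤ} {A : Finset ℤ} (hA : ∀ x ∈ A, Per k x) : Cmp k A := by
  rintro x hx y hy ⟨i, j, h⟩
  left
  obtain ⟨p, hp, hy'⟩ := hA y hy
  have h1 : (T k)^[i * p] y = y := per_mul hy' i
  refine ⟨(i * p - i) + j, ?_⟩
  rw [Function.iterate_add_apply, ← h, ← Function.iterate_add_apply,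
    Nat.sub_add_cancel (Nat.le_mul_of_pos_right i hp), h1]

/-- **Upper bound of the sums of reciprocals, all classes together.** -/
theorem cmp_sum : ∃ e C : ℝ, 1 - Pool.Agent.Results.MP_d0d59f_nt.UniformBelowEntropy.H < e ∧ 0 < e ∧ 0 < C ∧
    ∀ k : ℤ, k % 2 = 1 → ¬ (3 : ℤ) ∣ k → ∀ A : Finset ℤ, (∀ x ∈ A, x % 2 = 1) → Cmp k A →
      ∑ x ∈ A, 1 / max |((3 * x + k : ℤ) : ℝ)| |(k : ℝ)| ≤ C ∧
      ∀ y : ℝ, 0 < y → (∀ x ∈ A, ∀ z ∈ Cls k x, y < |(z : ℝ)|) →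
        ∑ x ∈ A, 1 / max |((3 * x + k : ℤ) : ℝ)| |(k : ℝ)| ≤ C * (|(k : ℝ)| / y) ^ e := by
  obtain ⟨c, hc0, hc⟩ := tree_count
  obtain ⟨e, he, he1, A0, hA0, hhigh⟩ := Pool.Agent.Results.MP_d0d59f_nt.UniformBelowEntropy.high
  have hTC : TC c := ⟨hc0, hc⟩
  have hH : Pool.Agent.Results.MP_d0d59f_nt.UniformBelowEntropy.H < 1 := by
    have h1 := Pool.Agent.H319R2.beta_lt
    unfold Pool.Agent.H319R2.beta at h1
    unfold Pool.Agent.Results.MP_d0d59f_nt.UniformBelowEntropy.H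
    linarith
  refine ⟨e, 2 * (3 + A0) / c, he, by linarith, by positivity, fun k hk hk3 A ho hA => ?_⟩
  obtain ⟨B, G, hBA, hGA, hB, hG, hsum⟩ := cmp_split hk ho hA
  rw [hsum]
  constructor
  · have h1 := window hTC hk hk3 hB (P := fun _ => True) (fun _ _ _ _ => trivial) (B := 3) cnt_true
    have h2 := window hTC hk hk3 hG (P := fun _ => True) (fun _ _ _ _ => trivial) (B := 3) cnt_true
    have h3 : 2 * (3 + A0) / c = 3 / c + 3 / c + 2 * (A0 / c) := by ring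
    have h4 : 0 < A0 / c := div_pos hA0 hc0
    linarith
  · intro y hy hyz
    have hP : ∀ x ∈ A, ∀ z, Tree k x z → ∀ n : ℕ, y < |(((T k)^[n] z : ℤ) : ℝ)| := by
      intro x hx z hz n
      apply hyz x hx
      refine cls_trans ⟨0, n, rfl⟩ (tree_cls hk (ho x hx) hz)
    have hcnt : ∀ X : ℝ, 1 ≤ X → Pool.Agent.Results.MP_d0d59f_nt.UniformBelowEntropy.count (fun z => ∀ n : ℕ, y < |(((T k)^[n] z : ℤ) : ℝ)|) X ≤
        (A0 * (|(k : ℝ)| / y) ^ e) * X := by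
      intro X hX
      have := hhigh k hk hk3 X y hX hy
      calc _ ≤ A0 * X * (|(k : ℝ)| / y) ^ e := this
        _ = _ := by ring
    have h1 := window hTC hk hk3 hB (P := fun z => ∀ n : ℕ, y < |(((T k)^[n] z : ℤ) : ℝ)|)
      (fun x hx => hP x (hBA hx)) hcnt
    have h2 := window hTC hk hk3 hG (P := fun z => ∀ n : ℕ, y < |(((T k)^[n] z : ℤ) : ℝ)|)
      (fun x hx => hP x (hGA hx)) hcnt
    have h5 : 0 ≤ (|(k : ℝ)| / y) ^ e := Real.rpow_nonneg (div_nonneg (abs_nonneg _) hy.le) _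
    have h3 : 2 * (3 + A0) / c * (|(k : ℝ)| / y) ^ e =
      A0 * (|(k : ℝ)| / y) ^ e / c + A0 * (|(k : ℝ)| / y) ^ e / c + (6 / c) * (|(k : ℝ)| / y) ^ e := by ring
    have h4 : 0 ≤ (6 / c) * (|(k : ℝ)| / y) ^ e := by positivity
    linarith

end Pool.Agent.Q74.RC
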